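import Pool.Agent.Helper14.CV.StA
import Pool.Agent.Helper14.CV.StE

/-!
# Project TX: the twisted `L`-function of a cusp form of weight 2 (analytic statements)

`χ` is a primitive Dirichlet character modulo `D` (any order, any parity), `f` a cusp form of weight
2 on `Γ₀(N)`. With `h_u(y) = f(u/D + iy)` and `hX(y) = ∑_{u<D} χ⁻¹(u) h_u(y)` one has
`hX(y) = τ ∑ χ(m) a_m e^(-2πmy)`, `τ` the Gauss sum of `χ⁻¹`, and the Mellin transform of `hX`
continues `τ Γ(s) (2π)^(-s) ∑ χ(m) a_m m^(-s)`. `G` is the potential of `f` (`IsPot`).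
-/

set_option autoImplicit false

open UpperHalfPlane CongruenceSubgroup
open scoped MatrixGroups

namespace Pool.Agent.Helper76.TX

open Pool.Agent.Helper14.CV

/-- `L` is the `L`-function of `f ⊗ χ` in the analytic normalisation (centre `1/2`): an entire
function with `L(s) = ∑ χ(m) a_m m^(-1/2) m^(-s)` for `Re s > 3/2`. -/
def IsLTw {N D : ℕ} (χ : DirichletCharacter ℂ D) (f : CuspForm (G0 N) 2) (L : ℂ → ℂ) : Prop :=
  Differentiable ℂ L ∧ ∀ s : ℂ, 3 / 2 < s.re →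
    HasSum (fun m : ℕ => χ (m : ZMod D) * fc f m / (m : ℂ) ^ (1 / 2 : ℂ) / (m : ℂ) ^ s) (L s)

/-- `h_u(y) = f(u/D + iy)`. -/
noncomputable def hU {N : ℕ} (D : ℕ) (f : CuspForm (G0 N) 2) (u : ℕ) (y : ℝ) : ℂ :=
  fz f ((u : ℂ) / (D : ℂ) + (y : ℂ) * Complex.I)

/-- `hX(y) = ∑_{u<D} χ⁻¹(u) f(u/D + iy)`. -/
noncomputable def hX {N D : ℕ} (χ : DirichletCharacter ℂ D) (f : CuspForm (G0 N) 2) (y : ℝ) : ℂ :=
  ∑ u ∈ Finset.range D, χ⁻¹ (u : ZMod D) * hU D f u y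

/-- The Gauss sum of `χ⁻¹`. -/
noncomputable def tau {D : ℕ} [NeZero D] (χ : DirichletCharacter ℂ D) : ℂ :=
  gaussSum χ⁻¹ (ZMod.stdAddChar (N := D))

/-- AN1. Proof. Continuity: `fz f` is differentiable on the upper half plane (for instance `StA1`:
`Fp f` has derivative `2πi fz f`; or directly from `CuspForm`). At infinity: `fz f z = ∑ a_m q^m`, `a_0 = 0`,
`a_m = O(m)`, so `‖fz f z‖ ≤ C e^(-2π Im z)` for `Im z ≥ 1` (as in A1b, Pool/Agent/Helper10/CV/M_A1b.lean; or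
Mathlib's exponential decay of cusp forms). At `0`: let `u/D = u'/D'` in lowest terms,
`γ = (u' b; D' e)` in `SL₂(ℤ)`; for `z = u/D + iy` one has `z = γ w`, `w = -e/D' + i/(D'^2 y)`, and
`f(z) = (D' w + e)^2 (f|γ)(w)`, `D' w + e = i/(D' y)`; `f|γ` is a cusp form (`CuspForm.translate`, see the proof
of A4, Pool/Agent/Helper26/CV/M_A4.lean and A6b, Pool/Agent/Helper79/CV/M_A6b.lean), so
`‖(f|γ)(w)‖ ≤ C exp(-c Im w)` for large `Im w`: `‖f(u/D+iy)‖ ≤ C y^(-2) exp(-c'/y)` for small `y`, which is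
`O(y^(-b))` for every `b`. -/
def StAN1 : Prop := ∀ (N : ℕ) (_ : NeZero N) (f : CuspForm (G0 N) 2) (D u : ℕ), 0 < D →
  ContinuousOn (hU D f u) (Set.Ioi 0) ∧
  (hU D f u =O[Filter.atTop] fun y : ℝ => Real.exp (-(2 * Real.pi) * y)) ∧
  ∀ b : ℝ, hU D f u =O[nhdsWithin 0 (Set.Ioi 0)] fun y : ℝ => y ^ (-b)

/-- AN2. Proof. `F(y) = Fp f (u/D + iy)` has derivative `2πi f(u/D+iy) i = -2π h_u(y)` (A1), tends to
`G 1 0 = 0 + const` for `y → ∞`: `IsPot` for the matrix `(1 0; 0 1)` (path `x + iy`, limit `G 1 0`,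
`x = u/D`), and to `G u D` for `y → 0+`: `IsPot` for the matrix `(u -1; D 0)`, whose path is
`(u (iy) - 1)/(D i y) = u/D + i/(D y)`, so `Fp f (u/D + i t) → G u D` as `t = 1/(D y) → 0+`. `h_u` is
integrable on `(0, ∞)` (AN1), so `∫_0^∞ -2π h_u = G 1 0 - G u D`
(`MeasureTheory.integral_Ioi_of_hasDerivAt_of_tendsto` or its variant with a limit at the left end).
Model: Pool/Agent/Helper94/CV/M_A5.lean. -/
def StAN2 : Prop := StA1 → StAN1 → ∀ (N : ℕ) (_ : NeZero N) (f : CuspForm (G0 N) 2)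
  (G : ℤ → ℤ → ℂ) (D u : ℕ), 0 < D → IsPot f G →
  2 * Real.pi * ∫ y in Set.Ioi (0 : ℝ), hU D f u y = G u D - G 1 0

/-- AN3. Gauss sums. Proof. `ZMod.stdAddChar (j : ZMod D) = exp (2πi j/D)` (`ZMod.stdAddChar_coe`). The formula is
`gaussSum_mulShift_of_isPrimitive` for `χ⁻¹` (primitive as well) at `a = m`, and the sum over `ZMod D` is
the sum over `range D`. If `tau χ = 0` then the discrete Fourier transform of `χ⁻¹` is `0`, so `χ⁻¹ = 0`
(`ZMod.dft` is injective; or multiply by `exp(-2πi m/D)`, sum over `m` and use orthogonality: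
`D χ⁻¹(1) = 0`), a contradiction. -/
def StAN3 : Prop := ∀ (D : ℕ) (_ : NeZero D) (χ : DirichletCharacter ℂ D), χ.IsPrimitive →
  tau χ ≠ 0 ∧ ∀ m : ℕ, ∑ u ∈ Finset.range D, χ⁻¹ (u : ZMod D) *
    Complex.exp (2 * Real.pi * Complex.I * m * ((u : ℂ) / (D : ℂ))) = χ (m : ZMod D) * tau χ

/-- AN4. The expansion of `hX`. Proof. A1: `fz f z = ∑ a_m exp(2πi m z)`, at `z = u/D + iy`; multiply by
`χ⁻¹(u)`, sum over `u` and use AN3. -/
def StAN4 : Prop := StA1 → StAN3 → ∀ (N : ℕ) (_ : NeZero N) (f : CuspForm (G0 N) 2) (D : ℕ)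
  (_ : NeZero D) (χ : DirichletCharacter ℂ D), χ.IsPrimitive → ∀ y : ℝ, 0 < y →
  HasSum (fun m : ℕ => tau χ * χ (m : ZMod D) * fc f m * Real.exp (-(2 * Real.pi * m) * y)) (hX χ f y)

/-- AN5. The Mellin transform of `hX`. Proof. `hasSum_mellin` with `a_m = tau χ χ(m) fc f m`,
`p_m = 2πm` (`fc f 0 = 0`), AN4; `fc f m = O(m)` (as in A1), so the series of norms
converges for `Re s > 2`. -/
def StAN5 : Prop := StAN4 → StA1 → StAN3 → ∀ (N : ℕ) (_ : NeZero N) (f : CuspForm (G0 N) 2) (D : ℕ)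
  (_ : NeZero D) (χ : DirichletCharacter ℂ D), χ.IsPrimitive → ∀ s : ℂ, 2 < s.re →
  HasSum (fun m : ℕ => Complex.Gamma s * (tau χ * χ (m : ZMod D) * fc f m) /
    ((2 * Real.pi * m : ℝ) : ℂ) ^ s) (mellin (hX χ f) s)

/-- AN6. The Mellin transform of `hX` is entire, and its value at `1`. Proof. AN1 for all `u`
(finite sum of continuous functions with the two decay properties):
`mellin_differentiableAt_of_isBigO_rpow_exp` (or `mellin_differentiableAt_of_isBigO_rpow`) for every `s`, with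
`b < Re s`. At `s = 1`: `mellin F 1 = ∫ F`, exchange the finite sum and the integral (integrable by
AN1), AN2. -/
def StAN6 : Prop := StA1 → StAN1 → StAN2 → ∀ (N : ℕ) (_ : NeZero N) (f : CuspForm (G0 N) 2) (D : ℕ)
  (_ : NeZero D) (χ : DirichletCharacter ℂ D),
  Differentiable ℂ (mellin (hX χ f)) ∧ ∀ G : ℤ → ℤ → ℂ, IsPot f G →
  2 * Real.pi * mellin (hX χ f) 1 =
    ∑ u ∈ Finset.range D, χ⁻¹ (u : ZMod D) * (G u D - G 1 0)

/-- The content of AN5. -/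
def AN5 : Prop := ∀ (N : ℕ) (_ : NeZero N) (f : CuspForm (G0 N) 2) (D : ℕ)
  (_ : NeZero D) (χ : DirichletCharacter ℂ D), χ.IsPrimitive → ∀ s : ℂ, 2 < s.re →
  HasSum (fun m : ℕ => Complex.Gamma s * (tau χ * χ (m : ZMod D) * fc f m) /
    ((2 * Real.pi * m : ℝ) : ℂ) ^ s) (mellin (hX χ f) s)

/-- The content of AN6. -/
def AN6 : Prop := ∀ (N : ℕ) (_ : NeZero N) (f : CuspForm (G0 N) 2) (D : ℕ)
  (_ : NeZero D) (χ : DirichletCharacter ℂ D),
  Differentiable ℂ (mellin (hX χ f)) ∧ ∀ G : ℤ → ℤ → ℂ, IsPot f G →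
  2 * Real.pi * mellin (hX χ f) 1 =
    ∑ u ∈ Finset.range D, χ⁻¹ (u : ZMod D) * (G u D - G 1 0)

/-- LTE. Existence of the entire continuation. Proof.
`L(s) = mellin hX (s+1/2) (2π)^(s+1/2) (1/Γ(s+1/2)) / tau χ` is entire (`Complex.differentiable_one_div_Gamma`,
AN6); for `Re s > 3/2` divide AN5 at `s + 1/2` by `Γ(s+1/2) tau χ (2π)^(-(s+1/2))`:
`χ(m) a_m m^(-(s+1/2)) = χ(m) a_m / m^(1/2) / m^s` (`m ≥ 1`; for `m = 0` use `fc f 0 = 0`, which is in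
Pool/Agent/Helper7/CV/M_A1.lean or Pool/Agent/Helper71/CV/M_Ls.lean). -/
def StLTE : Prop := AN5 → AN6 → StAN3 → ∀ (N : ℕ) (_ : NeZero N) (f : CuspForm (G0 N) 2) (D : ℕ)
  (_ : NeZero D) (χ : DirichletCharacter ℂ D), χ.IsPrimitive → ∃ L : ℂ → ℂ, IsLTw χ f L

/-- The content of LTC. -/
def LTC : Prop := ∀ (N : ℕ) (_ : NeZero N) (f : CuspForm (G0 N) 2) (D : ℕ)
  (_ : NeZero D) (χ : DirichletCharacter ℂ D) (L : ℂ → ℂ) (G : ℤ → ℤ → ℂ), χ.IsPrimitive →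
  IsLTw χ f L → IsPot f G →
  tau χ ≠ 0 ∧ L (1 / 2) * tau χ = ∑ u ∈ Finset.range D, χ⁻¹ (u : ZMod D) * (G u D - G 1 0)

/-- LTC. The central value. Proof. Both sides of
`L(s) tau χ = mellin hX (s+1/2) (2π)^(s+1/2) (1/Γ(s+1/2))` are entire and agree for `Re s > 3/2` (AN5 at
`s + 1/2`, uniqueness of the sum of a series), so they agree everywhere (identity theorem:
`AnalyticOnNhd.eq_of_eventuallyEq`); at `s = 1/2`: `Γ(1) = 1` and AN6. -/
def StLTC : Prop := AN5 → AN6 → StAN3 → LTC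

end Pool.Agent.Helper76.TX
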