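import Pool.Agent.Helper14.CV.StD

/-!
# Project TX: the paths from `∞` to `b/D` are linearly independent (statements)

`D` is odd, the level is `(r+1, r+1)`, `q = 2^r`, the plane is `(ZMod q)²`, `F1 = edgeF 1 1 0 0 1 G` (values on
`g{0,∞}`), `F3 = edgeF 1 1 1 0 1 G` (values on `g{0,1}`); `A: (x, y) ↦ (x + 1, y/(1+4y))`,
`B: (x, y) ↦ (x/(1+4x), y + 1)`.
-/

set_option autoImplicit false

namespace Pool.Agent.Helper76.TX

open Pool.Agent.Helper14.CV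

/-- GRID. Proof. `Y(x,y) = y/(1-4xy)` is invariant under `A` (`y' = y/(1+4y)`, `x' = x+1`:
`y'/(1-4x'y') = y/((1+4y) - 4(x+1)y) = y/(1-4xy)`), `Y(0,y) = y`, and `(x,y) A^(-x) = (0, Y(x,y))`: so
the sets `Y = const` are the `A`-orbits, cyclic of length `q`. In the same way `X(x,y) = x/(1-4xy)` for
`B`. The map `(x,y) ↦ (X, Y)` of the plane to itself is injective: with `t = 1-4xy` (a unit) one has
`x = Xt`, `y = Yt`, `t = 1 - 4XYt²`, and `t - t' = -4XY(t-t')(t+t')` gives `t = t'`; so it is bijective.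
Let `X0 = X(E2)`, `Y0 = Y(E1)` (images). If `Y(p)` is not in `Y0` then `lam` is constant on the `A`-orbit of
`p` (it does not change from `p A⁻¹` to `p` for all `p` in it); the same for `X`, `B`. As `k1, k2 < q` there
are `y*` not in `Y0`, `x*` not in `X0`; let `c` be the value of `lam` at the point with `(X, Y) = (x*, y*)`.
If `Y(p)` is not in `Y0`: `lam` is constant on the `A`-orbit of `p`, which contains the point with
`(X, Y) = (x*, Y(p))`, and that point is in the `B`-orbit `X = x*` on which `lam` is constant `c`. So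
`lam p = c`. In the same way if `X(p)` is not in `X0`. -/
def StGrid : Prop := ∀ (R : Type) (r k1 k2 : ℕ) (lam : ZMod (2 ^ r) → ZMod (2 ^ r) → R)
  (E1 E2 : Finset (ZMod (2 ^ r) × ZMod (2 ^ r))), E1.card ≤ k1 → E2.card ≤ k2 →
  k1 < 2 ^ r → k2 < 2 ^ r →
  (∀ x y, (x, y) ∉ E1 → tA (-1) lam x y = lam x y) →
  (∀ x y, (x, y) ∉ E2 → tB 1 lam x y = lam x y) →
  ∃ (c : R) (X0 Y0 : Finset (ZMod (2 ^ r))), X0.card ≤ k2 ∧ Y0.card ≤ k1 ∧
    ∀ x y, lam x y ≠ c → x * (1 - 4 * x * y)⁻¹ ∈ X0 ∧ y * (1 - 4 * x * y)⁻¹ ∈ Y0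

/-- PTH. Farey paths. The matrix `g = (1 2X; 0 1)` has plane coordinates `(X, 0)`; the path from `g(0,1)` to
`g(u,w)`. Proof by strong induction on `w`. `w = 1`: `u = 0`: empty lists. `u = 1`: the value is `F3` at
`(X, 0)`. `u = -1`: `B⁻¹ = (1 0; -2 1)` fixes `0` and maps `1` to `-1`: the value is `F3` at the coordinates
of `g B⁻¹`. `w ≥ 2` (so `|u| < w`, `u ≠ 0`): let `w1` be the residue in `0 < w1 ≤ w/2` with `u w1 ≡ 1` or `-1`
modulo `w` (of the two residues `w'`, `w - w'`, `w'` the inverse of `u`, take the smaller one; for `w = 2`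
`w1 = 1`), `u1 = (u w1 ∓ 1)/w`; then `|u1| ≤ w1` (`|u w1 ∓ 1| ≤ (w-1) w1 + 1 ≤ w w1`) and `u w1 - w u1 = ±1`.
Induction for `(u1, w1)` gives the path from `g(0,1)` to `g(u1,w1)`, of length at most
`log2 w1 + 1 ≤ log2 w`. The last edge: let `h` be `(u u1; w w1)` or `(u1 u; w1 w)`, of determinant one, `k = g h`
(`k` and `h` agree modulo 2 and have the same second row): the value needed is `±(G(k∞) - G(k0))`. By
the class of `k` modulo 2: `k ≡ 1`: `F1` at `k`, the coordinate `y` is `(k21/2)/k22`; `k ≡ (1 1; 0 1)`: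
`k = k' T`, `k' = (k11, k12-k11; k21, k22-k21)`, `G(k∞) - G(k0) = G(k'∞) - G(k'1) = F1(k') - F3(k')`, `y` is
`(k21/2)/(k22-k21)`; `k ≡ (1 0; 1 1)`: `k = k' (1 0; 1 1)`, `k' = (k11-k12, k12; k21-k22, k22)`, the value is
`G(k'1) - G(k'0) = F3(k')`; the other three classes: apply this to `k S' = (k12, -k11; k22, -k21)`, the value
changes its sign. Each edge gives at most one `F1`-term, and it has `y ≠ 0`: `y` is `(e/2)` times a unit
where `e` is `±w` or `±w1`, even, and `0 < |e| ≤ w < 2^(r+1)`. (EDG gives the value of `F1`, `F3` at any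
matrix with given coordinates.) -/
def StPth : Prop := StEdg → ∀ (r : ℕ) (X u w : ℤ), 0 < w → w < 2 ^ (r + 1) → |u| ≤ w → IsCoprime u w →
  ∃ L1 L3 : List (ℤ × ZMod (2 ^ r) × ZMod (2 ^ r)),
    L1.length ≤ Nat.log 2 w.toNat + 1 ∧ L3.length ≤ Nat.log 2 w.toNat + 1 ∧
    (∀ t ∈ L1, t.2.2 ≠ 0) ∧
    ∀ (R : Type) (_ : AddCommGroup R) (G : ℤ → ℤ → R), Sym (r + 1) (r + 1) G →
      G (u + 2 * X * w) w - G (2 * X) 1 =
        (L1.map fun t => t.1 • edgeF 1 1 0 0 1 G t.2.1 t.2.2).sum +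
        (L3.map fun t => t.1 • edgeF 1 1 1 0 1 G t.2.1 t.2.2).sum

/-- The content of PTH. -/
def Pth : Prop := ∀ (r : ℕ) (X u w : ℤ), 0 < w → w < 2 ^ (r + 1) → |u| ≤ w → IsCoprime u w →
  ∃ L1 L3 : List (ℤ × ZMod (2 ^ r) × ZMod (2 ^ r)),
    L1.length ≤ Nat.log 2 w.toNat + 1 ∧ L3.length ≤ Nat.log 2 w.toNat + 1 ∧
    (∀ t ∈ L1, t.2.2 ≠ 0) ∧
    ∀ (R : Type) (_ : AddCommGroup R) (G : ℤ → ℤ → R), Sym (r + 1) (r + 1) G →
      G (u + 2 * X * w) w - G (2 * X) 1 =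
        (L1.map fun t => t.1 • edgeF 1 1 0 0 1 G t.2.1 t.2.2).sum +
        (L3.map fun t => t.1 • edgeF 1 1 1 0 1 G t.2.1 t.2.2).sum

/-- NVA. The functional of the paths in terms of `F1`, `F3`. Proof. For `b < D` coprime to `D` let `j_b` be
the residue of `2^r b` modulo `D` with `|j_b| ≤ (D-1)/2` (`D` odd) and `X_b = (2^r b - j_b)/D`. Then
`(2^(r+1) b, D) = (2 j_b + 2 X_b D, D)`, `2 j_b` is coprime to `D` and `|2 j_b| ≤ D`, so PTH gives the lists for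
`(u, w) = (2 j_b, D)`, and `G(2 X_b, 1) - G(1, 0) = -F1(X_b, 0)` (EDG for `(1 2X; 0 1)`). Put
`Ψ(F1, F3) = ∑_b c_b (∑_(L1) + ∑_(L3) - F1(X_b, 0))`. `E1` is the set of all points of the `L1`-lists and
the points `(X_b, 0)`, `E3` the set of all points of the `L3`-lists (at most `D` values of `b`). The
`X_b` are pairwise distinct modulo `2^r`, and more: if `X_b ≡ X_b' + m` modulo `2^r`, `|m| ≤ M`,
`D (M + 1) < 2^r`, then `2^r` divides `D (X_b - X_b' - m) ≡ j_b' - j_b - D m`, of absolute value less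
than `2^r`, so `j_b' - j_b = D m`, `m = 0`, `j_b = j_b'` and `b = b'`. -/
def StNva : Prop := Pth → StEdg → ∀ (K : Type) (_ : Field K) (D r M : ℕ) (c : ℕ → K), Odd D →
  D * (M + 1) < 2 ^ r →
  ∃ (Ψ : (ZMod (2 ^ r) → ZMod (2 ^ r) → K) × (ZMod (2 ^ r) → ZMod (2 ^ r) → K) →ₗ[K] K)
    (E1 E3 : Finset (ZMod (2 ^ r) × ZMod (2 ^ r))) (xb : ℕ → ZMod (2 ^ r)),
    E1.card ≤ D * (Nat.log 2 D + 2) ∧ E3.card ≤ D * (Nat.log 2 D + 1) ∧
    (∀ p ∉ E1, Ψ (Function.curry (Pi.single p 1), 0) = 0) ∧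
    (∀ p ∉ E3, Ψ (0, Function.curry (Pi.single p 1)) = 0) ∧
    (∀ G : ℤ → ℤ → K, Sym (r + 1) (r + 1) G →
      ∑ b ∈ (Finset.range D).filter (fun b => Nat.Coprime b D),
        c b * (G (2 ^ (r + 1) * b) D - G 1 0) =
      Ψ (fun x y => edgeF 1 1 0 0 1 G x y, fun x y => edgeF 1 1 1 0 1 G x y)) ∧
    (∀ b < D, Nat.Coprime b D → Ψ (Function.curry (Pi.single (xb b, 0) 1), 0) = -c b ∧
      ∀ m : ℤ, m ≠ 0 → |m| ≤ M → Ψ (Function.curry (Pi.single (xb b + (m : ZMod (2 ^ r)), 0) 1), 0) = 0)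

/-- The content of NVA. -/
def Nva : Prop := ∀ (K : Type) (_ : Field K) (D r M : ℕ) (c : ℕ → K), Odd D →
  D * (M + 1) < 2 ^ r →
  ∃ (Ψ : (ZMod (2 ^ r) → ZMod (2 ^ r) → K) × (ZMod (2 ^ r) → ZMod (2 ^ r) → K) →ₗ[K] K)
    (E1 E3 : Finset (ZMod (2 ^ r) × ZMod (2 ^ r))) (xb : ℕ → ZMod (2 ^ r)),
    E1.card ≤ D * (Nat.log 2 D + 2) ∧ E3.card ≤ D * (Nat.log 2 D + 1) ∧
    (∀ p ∉ E1, Ψ (Function.curry (Pi.single p 1), 0) = 0) ∧
    (∀ p ∉ E3, Ψ (0, Function.curry (Pi.single p 1)) = 0) ∧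
    (∀ G : ℤ → ℤ → K, Sym (r + 1) (r + 1) G →
      ∑ b ∈ (Finset.range D).filter (fun b => Nat.Coprime b D),
        c b * (G (2 ^ (r + 1) * b) D - G 1 0) =
      Ψ (fun x y => edgeF 1 1 0 0 1 G x y, fun x y => edgeF 1 1 1 0 1 G x y)) ∧
    (∀ b < D, Nat.Coprime b D → Ψ (Function.curry (Pi.single (xb b, 0) 1), 0) = -c b ∧
      ∀ m : ℤ, m ≠ 0 → |m| ≤ M → Ψ (Function.curry (Pi.single (xb b + (m : ZMod (2 ^ r)), 0) 1), 0) = 0)

/-- NVB. Linear independence of the paths `{∞, b/D}` on symbols of level `(r+1, r+1)`. Proof. `L = log2 D`,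
`M = D (2L + 3)`; `D (M + 1) < 2^r`. Take `Ψ`, `E1`, `E3`, `xb` from NVA. By the hypothesis and EX
`Ψ(F1, F3) = 0` for all pairs with `Rel F1 F3`, the kernel of the linear map
`ρ(F1, F3) = (tA 1 F1 - F1) - (tA 1 (tB (-1) F3) - F3)` to the functions on the plane; so `Ψ = Λ∘ρ` for a
functional `Λ` (`LinearMap.exists_extend` on the range of `ρ`), `Λ E = ∑_p lam(p) E(p)`. At
`F1 = δ_p`: `lam(p A⁻¹) - lam(p) = Ψ(δ_p, 0)`; at `F3 = δ_p`: `lam(p) - lam(p B A⁻¹) = Ψ(0, δ_p)`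
(`(p A B⁻¹) = p'` iff `p = p' B A⁻¹`). So `tA (-1) lam = lam` off `E1`, and
`lam(p B) = lam(p B A⁻¹) = lam(p)` if `p B` is not in `E1` and `p` not in `E3`: `tB 1 lam = lam` off
`E2 = E3 ∪ (E1 B⁻¹)`, of cardinality at most `M`. GRID: `lam = v` off the points with `x/(1-4xy)` in
`X0`; on the line `y = 0`: `lam (x, 0) = v` except for at most `M` values of `x`. Let `c_b ≠ 0`. By NVA
`lam(x_b - 1, 0) - lam(x_b, 0) = -c_b ≠ 0`, and `lam(x_b + m - 1, 0) = lam(x_b + m, 0)` for `0 < |m| ≤ M`: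
so `lam` has the value `lam(x_b, 0)` at `x_b + t`, `0 ≤ t ≤ M` and the value `lam(x_b - 1, 0)` at
`x_b - 1 - t`, `0 ≤ t ≤ M`; each of the two different values is taken at `M + 1` distinct points
(`M + 1 < 2^r`), one of them is not `v`: contradiction. -/
def StNvb : Prop := StGrid → Nva → StEx → ∀ (K : Type) (_ : Field K) (D r : ℕ) (c : ℕ → K), Odd D →
  D * (D * (2 * Nat.log 2 D + 3) + 1) < 2 ^ r →
  (∀ G : ℤ → ℤ → K, Sym (r + 1) (r + 1) G →
    ∑ b ∈ (Finset.range D).filter (fun b => Nat.Coprime b D),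
      c b * (G (2 ^ (r + 1) * b) D - G 1 0) = 0) →
  ∀ b < D, Nat.Coprime b D → c b = 0

/-- The content of NVB. -/
def Nvb : Prop := ∀ (K : Type) (_ : Field K) (D r : ℕ) (c : ℕ → K), Odd D →
  D * (D * (2 * Nat.log 2 D + 3) + 1) < 2 ^ r →
  (∀ G : ℤ → ℤ → K, Sym (r + 1) (r + 1) G →
    ∑ b ∈ (Finset.range D).filter (fun b => Nat.Coprime b D),
      c b * (G (2 ^ (r + 1) * b) D - G 1 0) = 0) →
  ∀ b < D, Nat.Coprime b D → c b = 0

/-- NVC. Transport to level `(0, n)`, `n = 2r+2`: if `G` is a symbol of level `(r+1, r+1)` then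
`G0(p,q) = G(2^(r+1) p, q)` is a symbol of level `(0, 2r+2)` (as in UNB, Pool/Agent/Helper19/CV/M_Unb.lean)
and `G0 b D = G (2^(r+1) b) D`, `G0 1 0 = G (2^(r+1)) 0 = G 1 0` (homogeneous). -/
def StNvc : Prop := Nvb → ∀ (K : Type) (_ : Field K) (D r : ℕ) (c : ℕ → K), Odd D →
  D * (D * (2 * Nat.log 2 D + 3) + 1) < 2 ^ r →
  (∀ G : ℤ → ℤ → K, Sym 0 (2 * r + 2) G →
    ∑ b ∈ (Finset.range D).filter (fun b => Nat.Coprime b D), c b * (G b D - G 1 0) = 0) →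
  ∀ b < D, Nat.Coprime b D → c b = 0

/-- The content of NVC. -/
def Nvc : Prop := ∀ (K : Type) (_ : Field K) (D r : ℕ) (c : ℕ → K), Odd D →
  D * (D * (2 * Nat.log 2 D + 3) + 1) < 2 ^ r →
  (∀ G : ℤ → ℤ → K, Sym 0 (2 * r + 2) G →
    ∑ b ∈ (Finset.range D).filter (fun b => Nat.Coprime b D), c b * (G b D - G 1 0) = 0) →
  ∀ b < D, Nat.Coprime b D → c b = 0

end Pool.Agent.Helper76.TX
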