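import Pool.Agent.Helper76.TX.Defs
import Pool.Agent.Helper76.TX.StAn
import Pool.Agent.Helper76.TX.StNv
import Pool.Agent.Helper78.TW.StA

/-!
# Project TU: all quadratic twists of the newforms of level `2^n` (statements)

THEOREM. For `n ≥ 5`, `d` odd and squarefree, `χ = (·/d)`: all but `64 d² (log₂ d + 2) 2^(n/2)` of the newforms
`f` of weight 2, level `2^n` and root number `χ(-2^n)` satisfy `L(1/2, f × χ) ≠ 0`. The definitions
`TW`, `SD`, `eX`, `evX`, `NewSymS`, `NSS` are in `Defs.lean`. The functional `eX d` on integral symbols is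
modulo 2 the functional `SD d`, which is `G ↦ (T_d G)(∞) - (T_d G)(0)` (TD), so a combination of the
functionals `ev i j` modulo 2 (XD, SPN), a nonzero one as soon as the level is large (`Nvc`); nilpotency
of `T_3`, `T_5` modulo 2 gives the lower bound for the rank of `evX d` (LBX); the upper bound is the
count of new symbols of all levels `2^m`, `m ≤ n`, with `W = -χ(-2^m)`, `* = χ(-1)` (UPX).
-/

set_option autoImplicit false

namespace Pool.Agent.Helper76.TX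

open Pool.Agent.Helper14.CV Pool.Agent.Helper28.WK Pool.Agent.Helper78.TW

/-- TD. Modulo 2 the coprime path sum is the Hecke operator `T_d`. Proof. For `m ≥ 1` let
`S_m(G) = ∑_{b<m, (b,m)=1} (G b m - G 1 0)` (`= SD m G`; `SD 1 G = G 0 1 - G 1 0`). A symbol `G` of level
`(0, n)` satisfies `G (p + q) q = G p q` for `(p,q) ≠ 0` (the constant of `(1 1; 0 1)` is `0`: evaluate at
`(1, 0)`), so `G b m` depends only on `b` modulo `m`. Claim: for a prime `l` not dividing `2 m`: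
`SD m (Tl l 1 G) = SD (l m) G + 2 SD m G`, so `= SD (l m) G` modulo 2. Indeed
`Tl l 1 G b m - Tl l 1 G 1 0 = (G (l b) m - G 1 0) + ∑_{j<l} (G (b + j m) (l m) - G 1 0)` (`Homog`:
`G l 0 = G 1 0`, `G (l b) m` with `b ↦ l b` a permutation of the residues prime to `m`: the first part gives
`SD m G`); `b + j m` runs through the residues modulo `l m` prime to `m`: those prime to `l` give
`SD (l m) G`, those divisible by `l` are `l b'` with `b'` prime to `m`, `G (l b') (l m) = G b' m`: they give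
`SD m G`. Now apply this to the primes of `d` (`Nat.primeFactorsList d`, a list without duplicates as `d` is
squarefree, product `d`), all iterates being symbols by HKS: induction on the list `L` of distinct
odd primes: `SD m (TW L G) = SD (m L.prod) G` for `m` prime to `2 L.prod`; `m = 1` gives the claim
(signs do not matter in `ZMod 2`). -/
def StTd : Prop := StHkS → ∀ (n d : ℕ) (G : ℤ → ℤ → ZMod 2), Odd d → Squarefree d → Sym 0 n G →
  TW d.primeFactorsList G 1 0 - TW d.primeFactorsList G 0 1 = SD d G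

/-- The content of TD. -/
def Td : Prop := ∀ (n d : ℕ) (G : ℤ → ℤ → ZMod 2), Odd d → Squarefree d → Sym 0 n G →
  TW d.primeFactorsList G 1 0 - TW d.primeFactorsList G 0 1 = SD d G

/-- The content of XA. -/
def Xa : Prop := ∀ (n : ℕ) (G : ℤ → ℤ → ℂ), 3 ≤ n → Sym 0 n G → (∀ i j : ℕ, ev 1 G i j = 0) →
  ∀ L : List ℕ, (∀ l ∈ L, l.Prime ∧ l ≠ 2) → TW L G 1 0 = TW L G 0 1

/-- XA. A complex symbol killed by all `T_3^i T_5^j {0,∞}` is killed by all Hecke words. Proof. Let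
`e_L(G) = TW L G 1 0 - TW L G 0 1`; linear in `G` (`Tl_add`, `Tl_smul`), `e_L(G) = e_L(H)` if `EqC G H`. By HKW,
HKS (induction on `L`, as in the proof of `StEv`, Pool/Agent/Helper75/CV/M_Ev.lean):
`e_L(W G) = -e_L(G)`, `W = act 0 (-1) (2^n) 0`, and by HKT `e_L(* G) = e_L(G)`, `* = act (-1) 0 0 1`; by HK as in
`StEvU` (Pool/Agent/Helper28/WK/StA.lean; its proof for `T_3`, `T_5` works for every prime `l ≠ 2`:
`Tl l 1 (u G) ≈ u (Tl l 1 G)`, `u = act 2 0 0 1`; `u ψ` is a symbol of level `n` if `ψ` is one of level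
`n - 1`): `e_L(u ψ) = e_L(ψ)`. Put `H1 = G - W G`, `H2 = H1 + * H1`: a symbol (NRM) with `W H2 ≈ -H2`,
`* H2 ≈ H2` (COM; `W W G ≈ G`), `ev H2 = 0` (EVW) and `e_L(H2) = 4 e_L(G)`. By `Kk` there is a symbol `ψ` of
level `2^(n-1)` with `u ψ - ψ ≈ H2`, so `e_L(H2) = 0`. -/
def StXa : Prop := StHk → StHkS → StHkW → StHkT → StNrm → StCom → StEv → Kk → Xa

/-- The content of XD. -/
def Xd : Prop := ∀ (n : ℕ) (g : ℤ → ℤ → ZMod 2), 5 ≤ n → Sym 0 n g → (∀ i j : ℕ, ev 1 g i j = 0) →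
  ∀ L : List ℕ, (∀ l ∈ L, l.Prime ∧ l ≠ 2) → TW L g 1 0 = TW L g 0 1

/-- XD. The same modulo 2. Proof. `Crm` with `M = 1` (`ZMod (2^1)` is `ZMod 2`): an odd `d` and an
integral symbol `G` with `ev G = 0` and reduction `≈ d g = g`. The complexification of `G` is a symbol
with `ev = 0` (`Tl` commutes with the cast), so by XA `TW L G 1 0 = TW L G 0 1` over `ℂ`, so over `ℤ`
and modulo 2. -/
def StXd : Prop := Crm → Xa → Xd

/-- The content of NF. -/
def Nf : Prop := ∀ (n : ℕ) (g : ℤ → ℤ → ZMod 2), 5 ≤ n → Sym 0 n g → ∀ i j : ℕ,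
  2 ^ (n / 2 + 1) < 3 * i + 4 * j → ev 1 g i j = 0

/-- NF. Nilpotency for symbols modulo 2. Proof: `Lft` with `M = 1` lifts `g` to an integral symbol `G`
up to a constant; `Nil` for `G`; `ev` commutes with reduction and does not see constants (`ev_congr`). -/
def StNf : Prop := Lft → Nil → Nf

/-- The content of SPN. -/
def Spn : Prop := ∀ n d : ℕ, 5 ≤ n → Odd d → Squarefree d →
  ∃ (S : Finset (ℕ × ℕ)) (c : ℕ × ℕ → ZMod 2), ∀ g : ℤ → ℤ → ZMod 2, Sym 0 n g → ∀ a b : ℕ,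
    SD d ((Tl 3 1)^[a] ((Tl 5 1)^[b] g)) = ∑ p ∈ S, c p * ev 1 g (a + p.1) (b + p.2)

/-- SPN. Proof. Let `X` be the `ZMod 2`-space (submodule of `ℤ → ℤ → ZMod 2`) of the symbols `g` of level
`(0, n)`, `S` the set of all `(i,j)` with `i, j ≤ 2^(n/2+1)`. By NF `ev i j = 0` on `X` off `S`. The functional
`φ(g) = TW d.primeFactorsList g 1 0 - TW d.primeFactorsList g 0 1` on `X` vanishes where all `ev i j`,
`(i,j) ∈ S`, vanish (XD), so it is a combination `∑ c p ev p` of them (`mem_span_of_iInf_ker_le_ker`, finite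
family). By TD `SD d g = ∑ c p ev 1 g p.1 p.2`. Apply this to `(Tl 3 1)^[a] ((Tl 5 1)^[b] g)` (a symbol, and
its `ev` at `p` is `ev 1 g (p.1 + a) (p.2 + b)` by `Cm`). -/
def StSpn : Prop := Td → Xd → Nf → Cm → Spn

/-- The content of LBX. -/
def Lbx : Prop := ∀ d r n : ℕ, Odd d → Squarefree d →
  d * (d * (2 * Nat.log 2 d + 3) + 1) < 2 ^ r → 5 ≤ n → 2 * r + 2 ≤ n →
  Module.Finite ℂ ((XS n).map (evX d)) →
  DD n ≤ Module.finrank ℂ ((XS n).map (evX d)) + 2 ^ (r + 2) * (2 ^ (n / 2 + 1) + 1)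

/-- LBX. Lower bound for the rank. Proof. `r ≥ 3`. By `Nvc` for `K = ZMod 2`, `c = 1`, there is a symbol
`g0` modulo 2 of level `(0, 2r+2)`, so also of level `(0, n)`, with `SD d g0 ≠ 0`. Let `S`, `c` be from SPN for
`n`: `0 ≠ SD d g0 = ∑ c p ev 1 g0 p.1 p.2`, so there is `p` in `S` with `c p ≠ 0` and `ev 1 g0 p.1 p.2 ≠ 0`, and by
NF at level `2r+2 ≥ 5`: `3 p.1 + 4 p.2 ≤ 2^(r+2) = w1`. Let `G k`, `ij l`, `k, l < N = DD n`, be from `Bas` and
`E i j k = (ev 1 (G k) i j : ZMod 2)`: the `E (ij l)` span `Fin N → ZMod 2` (odd determinant),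
`E i j = 0` for `3i + 4j > w = 2^(n/2+1)` (NF for the reductions of the `G k`). `Rk` for `F = ZMod 2`, `g = c`:
`N ≤ finrank (span of the vectors Vq) + w1 (w+1)`, where
`Vq k = ∑_p c p E (q+p) k = SD d ((Tl 3 1)^[q.1] ((Tl 5 1)^[q.2] (G k)))` modulo 2 (SPN), which is the
reduction of the integer `eX d (⋯)` (`jacobiSym a d` is `±1` if `a` is prime to `d` and `0` otherwise). Let
`y` run through a basis (`r'` vectors) of the kernel of `(y_k) ↦ ∑ y_k evX d (G k)` on `Fin N → ℂ` (the `G k`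
complexified). By `Up`, for a local domain `A` in `ℂ` with residue field containing `ZMod 2` (from VAL,
`m = 1`; or `A = Localization.AtPrime (span {2})` of `ℤ`; the span over the residue field of vectors
with entries in `ZMod 2` has at least the dimension over `ZMod 2`), or directly by minors:
`r' + finrank (span of the Vq) ≤ N`. And `N - r'` is the dimension of the span of the `evX d (G k)`, at most
`finrank ((XS n).map (evX d))`. -/
def StLbx : Prop := Bas → Spn → Nf → Nvc → Rk → Up → StVal → Lbx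

/-! ### Upper bound -/

/-- The content of EVX. -/
def Evx : Prop := ∀ (d n : ℕ) (G : ℤ → ℤ → ℂ), Odd d → 2 ≤ n → Sym 0 n G →
  evX d (act 0 (-1) (2 ^ n) 0 G) = (-(jacobiSym (-(2 ^ n)) d)) • evX d G ∧
  evX d (act (-1) 0 0 1 G) = (jacobiSym (-1) d) • evX d G

/-- EVX. Proof. First for `eX d` and any symbol `H` of level `(0, n)` (which satisfies
`H (p + q) q = H p q`). `*`: `eX d (act (-1) 0 0 1 H) = ∑ χ(a) (H (-a) d - H (-1) 0)`, `H (-1) 0 = H 1 0`, replace `a` by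
`d - a` (`a = 0` only contributes for `d = 1`): `χ(-1) eX d H`. `W = act 0 (-1) (2^n) 0`: the terms with `(a, d) ≠ 1` vanish;
for `a < d` prime to `d` let `a' < d` with `2^n a a' ≡ -1` modulo `d` and `δ = -(1 + 2^n a a')/d`. The matrix
`γ = (-d, a'; 2^n a, δ)` has determinant one and `2^n` divides its lower left entry; `γ (1, 0) = (-d, 2^n a)`,
`γ (a', d) = (0, -1)`. So `W H a d - W H 1 0 = H (-d) (2^n a) - H 0 (2^n) = H (γ(1,0)) - H (γ(a',d)) = H 1 0 - H a' d`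
(`Homog`), and `χ(a) χ(a') χ(2^n) = χ(-1)`, so `χ(a) = χ(-2^n) χ(a')`; `a ↦ a'` is a permutation of the
residues prime to `d`. Then for `evX d`: `T_3`, `T_5` commute with `W` and `*` up to constants (HKW, HKT, HKS,
induction as in Pool/Agent/Helper75/CV/M_Ev.lean), `eX_congr`. -/
def StEvx : Prop := StHkS → StHkW → StHkT → StNrm → Evx

/-- The content of B3X. -/
def B3x : Prop := ∀ (d n : ℕ) (G : ℤ → ℤ → ℂ), Odd d → 3 ≤ n → Sym 0 n G →
  ∃ G0 G1 : ℤ → ℤ → ℂ, Sym 0 (n - 1) G0 ∧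
    NewSymS n (jacobiSym (-(2 ^ n)) d) (jacobiSym (-1) d) G1 ∧ evX d G = evX d G0 + evX d G1

/-- B3X. Proof: as `StB3a` (docstring in Pool/Agent/Helper14/CV/StB.lean, proof
Pool/Agent/Helper71/CV/M_B3a.lean) with the signs `w = jacobiSym (-2^n) d`, `ε = jacobiSym (-1) d` (both `±1`,
`d` odd, prime to 2): `A = (G + G∘t)/2`, `B = (G - G∘t)/2`, `C = (B + B∘σ)/2`, `E = (B - B∘σ)/2`,
`F = (E - w E∘W)/2`, `G1 = (F + ε F∘*)/2`, `G0 = C - w A∘W`; `evX A = -w evX (A∘W)`, `evX E = evX F = evX G1` (EVX). -/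
def StB3x : Prop := StNrm → StCom → StLvl → Evx → B3x

/-- The content of BSX. -/
def Bsx : Prop := ∀ d : ℕ, d ≠ 0 → Module.Finite ℂ ((XS 2).map (evX d)) ∧
  Module.finrank ℂ ((XS 2).map (evX d)) ≤ 2

/-- BSX. Level 4. Proof. If `G` is a symbol of level `(0, 2)` then `G1(p,q) = G(p, 2q)` is one of level
`(1, 1)` (`(a b; c d)` with `b, c` even: `(a, b/2; 2c, d)` for `G`); `r = s = 0` in UNI: `G1` is constant if
its two plane values `edgeF 1 1 0 0 1 G1 0 0`, `edgeF 1 1 1 0 1 G1 0 0` vanish. So `XS 2 → ℂ²` is a linear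
map with kernel the constants, on which `evX d` vanishes (`evX_congr`), and the image of `evX d` has
dimension at most 2 (as in `W_bound` of Pool/Agent/Helper22/CV/M_CoreOf.lean). -/
def StBsx : Prop := StUni → Bsx

/-- UBS. The space of new symbols with `W = -w`, `* = ε` modulo constants has dimension at most
`dd n + 2^(n/2)`, for all four pairs of signs (`StUBS` is proved from the modules with signs). -/
def UBS : Prop := ∀ (n : ℕ) (w ε : ℤ), 3 ≤ n → Sg w → Sg ε →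
  ∃ Θ : NSS n w ε →ₗ[ℂ] (Fin (dd n + 2 ^ (n / 2)) → ℂ),
    ∀ G : NSS n w ε, Θ G = 0 → EqC (G : ℤ → ℤ → ℂ) 0

/-- The content of UPX. -/
def Upx : Prop := ∀ d n : ℕ, Odd d → 3 ≤ n → Module.Finite ℂ ((XS n).map (evX d)) ∧
  ∀ (z : ℕ) (H : Fin z → ℤ → ℤ → ℂ),
  (∀ k, NewSymS n (jacobiSym (-(2 ^ n)) d) (jacobiSym (-1) d) (H k)) → (∀ k, evX d (H k) = 0) →
  (∀ c : Fin z → ℂ, EqC (∑ k, c k • H k) 0 → c = 0) →
  Module.finrank ℂ ((XS n).map (evX d)) + z ≤ DD n + 4 * 2 ^ (n / 2)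

/-- UPX. Proof: as in Pool/Agent/Helper22/CV/M_CoreOf.lean. `V m = (XS m).map (evX d)`,
`W m = (NSS m w_m ε).map (evX d)`, `w_m = jacobiSym (-2^m) d`, `ε = jacobiSym (-1) d` (signs: `jacobiSym` of a number
prime to `d`). B3X: `V m ≤ V (m-1) ⊔ W m` for `m ≥ 3`; UBS: `W m` is finite-dimensional,
`finrank (W m) ≤ dd m + 2^(m/2)`, and if `H_1, ..., H_z` in `NSS m w_m ε` are killed by `evX d` and independent modulo
constants, then `finrank (W m) + z ≤ dd m + 2^(m/2)` (the vectors `Θ H_k` are independent and in the kernel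
of the induced map `range Θ → W m`). BSX: `finrank (V 2) ≤ 2`. Sum:
`2 + ∑_{3 ≤ m ≤ n} (dd m + 2^(m/2)) ≤ DD n + 1 + ∑_{3 ≤ m ≤ n} 2^(m/2) ≤ DD n + 4 · 2^(n/2)`, since
`∑_{m ≤ n} 2^(m/2) ≤ 4 · 2^(n/2) - 2` (`n = 2k`: `3 · 2^k - 2`, `n = 2k+1`: `4 · 2^k - 2`). -/
def StUpx : Prop := B3x → Bsx → UBS → Upx

/-- The content of CNX. -/
def Cnx : Prop := ∀ d n : ℕ, Odd d → Squarefree d → 5 ≤ n → ∀ (z : ℕ) (H : Fin z → ℤ → ℤ → ℂ),
  (∀ k, NewSymS n (jacobiSym (-(2 ^ n)) d) (jacobiSym (-1) d) (H k)) → (∀ k, evX d (H k) = 0) →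
  (∀ c : Fin z → ℂ, EqC (∑ k, c k • H k) 0 → c = 0) →
  z ≤ 64 * d ^ 2 * (Nat.log 2 d + 2) * 2 ^ (n / 2)

/-- CNX. Proof. `L = log₂ d`, `B = d (d (2L+3) + 1)`, `r = log₂ B + 1`, so `B < 2^r ≤ 2B` and
`B ≤ d² (2L+4) = 2 d² (L+2)`. If `2r + 2 ≤ n`: LBX and UPX give
`z ≤ 2^(r+2) (2^(n/2+1) + 1) + 4 · 2^(n/2)`, `2^(r+2) ≤ 2 · 2^(n/2)` as `r + 1 ≤ n/2`, so
`z ≤ (2^(r+3) + 6) 2^(n/2) ≤ (16 B + 6) 2^(n/2) ≤ (32 d² (L+2) + 6) 2^(n/2)`. If `n < 2r + 2`, then `n/2 ≤ r`, and by UBS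
(independence of the `Θ H_k`) `z ≤ dd n + 2^(n/2)`, `dd n ≤ 2^(n/2) 2^(n/2) ≤ 2^r 2^(n/2)` (unfold `dd`: for even `n`
`dd n = 4^(n/2-3)`, for odd `n`: `a (a+1)/2 ≤ a²`, `a = 2^(n/2-2)`), so `z ≤ (2^r + 1) 2^(n/2) ≤ (2B + 1) 2^(n/2)`. -/
def StCnx : Prop := Lbx → Upx → UBS → Cnx

/-! ### The characters and the final theorem -/

/-- The content of JAC. -/
def Jac : Prop := ∀ d : ℕ, Odd d → Squarefree d → ∃ χ : DirichletCharacter ℂ d, χ.IsPrimitive ∧
  χ⁻¹ = χ ∧ ∀ a : ℤ, χ (a : ZMod d) = ((jacobiSym a d : ℤ) : ℂ)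

/-- JAC. The Jacobi symbol modulo an odd squarefree `d` is a primitive real Dirichlet character. Proof.
`jacobiSym a d` depends only on `a` modulo `d` (`jacobiSym.mod_left`), is multiplicative in `a` and nonzero
iff `a` is prime to `d`: `MulChar.ofUnitHom` or a direct `MulChar`. `χ² = 1` on units, so `χ⁻¹ = χ`. Primitive:
otherwise `χ` factors through a proper divisor `m` of `d` (`DirichletCharacter.FactorsThrough`,
`conductor`); let `p` be a prime with `m p ∣ d`; `d = p d'`, `p` prime to `d'`, and `m ∣ d'`; choose `a ≡ 1` modulo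
`d'` and `a` a nonresidue modulo `p` (Chinese remainder theorem): `χ(a) = (a/p)(a/d') = -1`, but `a ≡ 1`
modulo `m` gives `χ(a) = 1`. -/
def StJac : Prop := Jac

end Pool.Agent.Helper76.TX
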