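import Pool.Agent.Helper76.TX.StU

/-!
# Project TU, module BSX: level 4
-/

set_option autoImplicit false

namespace Pool.Agent.Helper76.TX

open Pool.Agent.Helper14.CV

private theorem sym_two {G : ℤ → ℤ → ℂ} (h : Sym 0 2 G) : Sym 1 1 (fun p q => G p (2 * q)) := by
  obtain ⟨h1, h2⟩ := h
  refine ⟨fun k p q hk hpq => ?_, fun a b c d hd hb hc => ?_⟩
  · show G (k * p) (2 * (k * q)) = G p (2 * q)
    rw [mul_left_comm 2 k q]
    refine h1 k p (2 * q) hk ?_
    rcases hpq with hp | hq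
    · exact Or.inl hp
    · exact Or.inr (mul_ne_zero two_ne_zero hq)
  · obtain ⟨b', rfl⟩ := hb
    obtain ⟨c', rfl⟩ := hc
    obtain ⟨κ, hκ⟩ := h2 a b' (4 * c') d (by linear_combination hd) (by simp)
      ⟨c', by ring⟩
    refine ⟨κ, fun p q hpq => ?_⟩
    have hpq' : p ≠ 0 ∨ 2 * q ≠ 0 := by
      rcases hpq with hp | hq
      · exact Or.inl hp
      · exact Or.inr (mul_ne_zero two_ne_zero hq)
    have h3 := hκ p (2 * q) hpq'
    simp only [act] at h3 ⊢
    rw [← h3]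
    congr 1 <;> ring

private theorem ker_two (hU : StUni) {G : ℤ → ℤ → ℂ} (h : Sym 0 2 G)
    (h1 : edgeF 1 1 0 0 1 (fun p q => G p (2 * q)) (0 : ZMod (2 ^ 0)) (0 : ZMod (2 ^ 0)) = 0)
    (h3 : edgeF 1 1 1 0 1 (fun p q => G p (2 * q)) (0 : ZMod (2 ^ 0)) (0 : ZMod (2 ^ 0)) = 0) :
    EqC G 0 := by
  have hs : ∀ x : ZMod (2 ^ 0), x = 0 := by
    intro x
    have : Subsingleton (ZMod (2 ^ 0)) := by
      rw [pow_zero]
      infer_instance
    exact Subsingleton.elim _ _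
  obtain ⟨κ, hκ⟩ := hU ℂ inferInstance 0 0 (fun p q => G p (2 * q)) (sym_two h)
    (fun x y => by rw [hs x, hs y]; exact h1) (fun x y => by rw [hs x, hs y]; exact h3)
  refine ⟨κ, fun p q hpq => ?_⟩
  have h4 := hκ (2 * p) q (by
    rcases hpq with hp | hq
    · exact Or.inl (mul_ne_zero two_ne_zero hp)
    · exact Or.inr hq)
  have h5 := h.1 2 p q two_ne_zero hpq
  simp only [Pi.zero_apply, zero_add] at h4 ⊢
  rw [← h5]
  exact h4

theorem hBsx : StBsx := by
  intro hU d hd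
  let Θ : XS 2 →ₗ[ℂ] (Fin 2 → ℂ) :=
    { toFun := fun G => ![edgeF 1 1 0 0 1 (fun p q => (G : ℤ → ℤ → ℂ) p (2 * q))
          (0 : ZMod (2 ^ 0)) (0 : ZMod (2 ^ 0)),
        edgeF 1 1 1 0 1 (fun p q => (G : ℤ → ℤ → ℂ) p (2 * q))
          (0 : ZMod (2 ^ 0)) (0 : ZMod (2 ^ 0))]
      map_add' := fun G H => by
        funext i
        fin_cases i
        · simp only [edgeF, Submodule.coe_add, Pi.add_apply]
          simp
          ring
        · simp only [edgeF, Submodule.coe_add, Pi.add_apply]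
          simp
          ring
      map_smul' := fun c G => by
        funext i
        fin_cases i
        · simp only [edgeF, Submodule.coe_smul, Pi.smul_apply, smul_eq_mul]
          simp
          ring
        · simp only [edgeF, Submodule.coe_smul, Pi.smul_apply, smul_eq_mul]
          simp
          ring }
  have hΘ : ∀ G : XS 2, Θ G = 0 → EqC (G : ℤ → ℤ → ℂ) 0 := by
    intro G h0
    exact ker_two hU G.2 (congrFun h0 0) (congrFun h0 1)
  set f : XS 2 →ₗ[ℂ] (ℕ → ℕ → ℂ) := evX d ∘ₗ (XS 2).subtype with hf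
  have hker : LinearMap.ker Θ ≤ LinearMap.ker f := by
    intro G hG
    have h1 : EqC (G : ℤ → ℤ → ℂ) 0 := hΘ G (LinearMap.mem_ker.mp hG)
    refine LinearMap.mem_ker.mpr ?_
    show evX d (G : ℤ → ℤ → ℂ) = 0
    rw [evX_congr hd h1, map_zero]
  set g : LinearMap.range Θ →ₗ[ℂ] (ℕ → ℕ → ℂ) :=
    (Submodule.liftQ (LinearMap.ker Θ) f hker) ∘ₗ (Θ.quotKerEquivRange.symm).toLinearMap with hg
  have hgΘ : ∀ G : XS 2, g ⟨Θ G, LinearMap.mem_range_self Θ G⟩ = f G := by
    intro G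
    have h1 : Θ.quotKerEquivRange.symm ⟨Θ G, LinearMap.mem_range_self Θ G⟩ =
        (LinearMap.ker Θ).mkQ G := by
      rw [LinearEquiv.symm_apply_eq]
      rfl
    show (Submodule.liftQ (LinearMap.ker Θ) f hker)
      (Θ.quotKerEquivRange.symm ⟨Θ G, LinearMap.mem_range_self Θ G⟩) = f G
    rw [h1]
    rfl
  have hrange : (XS 2).map (evX d) = LinearMap.range g := by
    ext x
    constructor
    · rintro ⟨G, hG, rfl⟩
      exact ⟨⟨Θ ⟨G, hG⟩, LinearMap.mem_range_self Θ _⟩, hgΘ ⟨G, hG⟩⟩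
    · rintro ⟨⟨y, G, rfl⟩, rfl⟩
      exact ⟨(G : ℤ → ℤ → ℂ), G.2, (hgΘ G).symm⟩
  rw [hrange]
  refine ⟨inferInstance, ?_⟩
  refine (LinearMap.finrank_range_le g).trans ?_
  have := Submodule.finrank_le (LinearMap.range Θ)
  simpa using this

end Pool.Agent.Helper76.TX
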