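import Pool.Agent.Helper76.TX.StNv2

/-!
# Project TU, module CNX2: counting, linear form (after Helper15)
-/

set_option autoImplicit false

namespace Pool.Agent.Helper76.TX

open Pool.Agent.Helper14.CV Pool.Agent.Helper28.WK Pool.Agent.Helper78.TW

private theorem dd_le (n : ℕ) : dd n ≤ 2 ^ (n / 2) * 2 ^ (n / 2) := by
  unfold dd
  split_ifs with h1 h2
  · exact Nat.zero_le _
  · have e : 2 ^ (n / 2) * 2 ^ (n / 2) = 4 ^ (n / 2) := by
      rw [← mul_pow]
      norm_num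
    rw [e]
    exact Nat.pow_le_pow_right (by norm_num) (by omega)
  · set a := 2 ^ (n / 2 - 2) with ha
    have ha1 : 1 ≤ a := Nat.one_le_two_pow
    have ha2 : a ≤ 2 ^ (n / 2) := Nat.pow_le_pow_right (by norm_num) (by omega)
    have h3 : a * (a + 1) / 2 ≤ a * a := by
      apply Nat.div_le_of_le_mul
      nlinarith
    exact h3.trans (Nat.mul_le_mul ha2 ha2)

private theorem sg_pow (d n : ℕ) (hd : Odd d) : Sg (jacobiSym (-(2 ^ n)) d) := by
  apply jacobiSym.eq_one_or_neg_one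
  rw [Int.neg_gcd]
  have h : Nat.Coprime (2 ^ n) d := Nat.Coprime.pow_left n (Nat.coprime_two_left.mpr hd)
  have e : ((2 : ℤ) ^ n) = ((2 ^ n : ℕ) : ℤ) := by push_cast; rfl
  rw [e, Int.gcd_natCast_natCast]
  exact h

private theorem sg_one (d : ℕ) : Sg (jacobiSym (-1) d) := by
  apply jacobiSym.eq_one_or_neg_one
  simp

private theorem arith1 (B d L q r z : ℕ) (hB : B = d * (4 * L + 7)) (hd : 1 ≤ d)
    (hr : 2 ^ r ≤ 2 * B) (hq : 2 ^ (r + 1) ≤ q)
    (hz : z ≤ 2 ^ (r + 2) * (2 * q + 1) + 4 * q) : z ≤ 64 * d * (L + 2) * q := by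
  have e1 : 2 ^ (r + 2) = 4 * 2 ^ r := by ring
  have e2 : 2 ^ (r + 1) = 2 * 2 ^ r := by ring
  rw [e1] at hz
  rw [e2] at hq
  set t := 2 ^ r with ht
  have hP : 8 * t + 6 ≤ 64 * d * (L + 2) := by
    rw [hB] at hr
    nlinarith
  have h1 : (8 * t + 6) * q ≤ 64 * d * (L + 2) * q := Nat.mul_le_mul_right q hP
  nlinarith

private theorem arith2 (B d L q t z : ℕ) (hB : B = d * (4 * L + 7)) (hd : 1 ≤ d)
    (hr : t ≤ 2 * B) (hq : q ≤ t) (hz : z ≤ q * q + q) : z ≤ 64 * d * (L + 2) * q := by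
  have hP : t + 1 ≤ 64 * d * (L + 2) := by
    rw [hB] at hr
    nlinarith
  have h1 : (t + 1) * q ≤ 64 * d * (L + 2) * q := Nat.mul_le_mul_right q hP
  have h2 : q * q ≤ t * q := Nat.mul_le_mul_right q hq
  nlinarith

theorem hCnx2 : StCnx2 := by
  intro hL hU hUBS d n hd hsq hn z H hH hev hind
  have hd1 : 1 ≤ d := hd.pos
  set L := Nat.log 2 d with hLd
  set B := d * (4 * L + 7) with hBd
  have hB0 : B ≠ 0 := by
    have : 0 < B := by positivity
    omega
  set r := Nat.log 2 B + 1 with hrd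
  have hr1 : B < 2 ^ r := Nat.lt_pow_succ_log_self (by norm_num) B
  have hr2 : 2 ^ r ≤ 2 * B := by
    have := Nat.pow_log_le_self 2 hB0
    rw [hrd, pow_succ]
    omega
  by_cases hn2 : 2 * r + 2 ≤ n
  · obtain ⟨hfin, hb⟩ := hU d n hd (by omega)
    have h1 := hb z H hH hev hind
    have h2 := hL d r n hd hsq hr1 hn hn2 hfin
    refine arith1 B d L (2 ^ (n / 2)) r z hBd hd1 hr2
      (Nat.pow_le_pow_right (by norm_num) (by omega)) ?_
    have e : 2 ^ (n / 2 + 1) = 2 * 2 ^ (n / 2) := by ring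
    rw [e] at h2
    omega
  · have hq : 2 ^ (n / 2) ≤ 2 ^ r := Nat.pow_le_pow_right (by norm_num) (by omega)
    obtain ⟨Θ, hΘ⟩ := hUBS n (jacobiSym (-(2 ^ n)) d) (jacobiSym (-1) d) (by omega)
      (sg_pow d n hd) (sg_one d)
    have hli : LinearIndependent ℂ (fun k : Fin z =>
        Θ (⟨H k, hH k⟩ : NSS n (jacobiSym (-(2 ^ n)) d) (jacobiSym (-1) d))) := by
      rw [Fintype.linearIndependent_iff]
      intro c hc k
      have h1 : Θ (∑ k, c k • (⟨H k, hH k⟩ :
          NSS n (jacobiSym (-(2 ^ n)) d) (jacobiSym (-1) d))) = 0 := by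
        rw [map_sum]
        simpa only [map_smul] using hc
      have h2 := hΘ _ h1
      have h3 : ((∑ k, c k • (⟨H k, hH k⟩ :
          NSS n (jacobiSym (-(2 ^ n)) d) (jacobiSym (-1) d)) :
          NSS n (jacobiSym (-(2 ^ n)) d) (jacobiSym (-1) d)) : ℤ → ℤ → ℂ) = ∑ k, c k • H k := by
        rw [Submodule.coe_sum]
        rfl
      rw [h3] at h2
      have h4 := hind c h2
      rw [h4]
      rfl
    have h5 := hli.fintype_card_le_finrank
    rw [Fintype.card_fin, Module.finrank_fintype_fun_eq_card, Fintype.card_fin] at h5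
    refine arith2 B d L (2 ^ (n / 2)) (2 ^ r) z hBd hd1 hr2 hq ?_
    exact h5.trans (Nat.add_le_add_right (dd_le n) _)

end Pool.Agent.Helper76.TX
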