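import Pool.Agent.Helper76.TX.StNv2

/-!
# Project TU, module LBX2: lower bound for the rank of `evX`, linear form (after Helper21)

The rank over `ℂ` of the integral matrix `eX d (T_3^i T_5^j G_k)` is at least its rank modulo `2`
(`li_cplx`, `finrank_ge`), and modulo `2` the matrix is a nonzero polynomial in `T_3`, `T_5` applied to
`ev` (`Spn`), so `Rk` applies.
-/

set_option autoImplicit false

namespace Pool.Agent.Helper76.TX

open Pool.Agent.Helper14.CV Pool.Agent.Helper28.WK Pool.Agent.Helper78.TW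

/-! ### Change of the coefficient group -/

section maps

variable {R R' : Type} [AddCommGroup R] [AddCommGroup R'] (φ : R →+ R')

private theorem Tl_map (l : ℕ) (m : ℤ) (G : ℤ → ℤ → R) :
    Tl l m (fun p q => φ (G p q)) = fun p q => φ (Tl l m G p q) := by
  funext p q
  simp only [Tl, map_add, map_sum]

private theorem Tl_iter_map (l : ℕ) (m : ℤ) (i : ℕ) (G : ℤ → ℤ → R) :
    (Tl l m)^[i] (fun p q => φ (G p q)) = fun p q => φ ((Tl l m)^[i] G p q) := by
  induction i generalizing G with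
  | zero => rfl
  | succ i ih =>
    rw [Function.iterate_succ_apply, Function.iterate_succ_apply, Tl_map, ih]

private theorem ev_map (m : ℤ) (G : ℤ → ℤ → R) (i j : ℕ) :
    ev m (fun p q => φ (G p q)) i j = φ (ev m G i j) := by
  simp only [ev, Tl_iter_map, map_sub]

private theorem Sym_map {r s : ℕ} {G : ℤ → ℤ → R} (h : Sym r s G) :
    Sym r s (fun p q => φ (G p q)) := by
  refine ⟨fun k p q hk hpq => congrArg φ (h.1 k p q hk hpq), fun a b c d hd hb hc => ?_⟩
  obtain ⟨z, hz⟩ := h.2 a b c d hd hb hc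
  refine ⟨φ z, fun p q hpq => ?_⟩
  have := hz p q hpq
  simp only [act] at this ⊢
  rw [this, map_add]

private theorem eX_map (d : ℕ) (G : ℤ → ℤ → R) :
    eX d (fun p q => φ (G p q)) = φ (eX d G) := by
  simp only [eX, map_sum, map_zsmul, map_sub]

private theorem eX_iter_map (d i j : ℕ) (G : ℤ → ℤ → R) :
    eX d ((Tl 3 1)^[i] ((Tl 5 1)^[j] (fun p q => φ (G p q)))) =
      φ (eX d ((Tl 3 1)^[i] ((Tl 5 1)^[j] G))) := by
  rw [Tl_iter_map, Tl_iter_map, eX_map]

end maps

/-- Modulo `2` the twisted sum is the sum over the coprime residues. -/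
private theorem eX_eq_SD (d : ℕ) (hd : d ≠ 0) (H : ℤ → ℤ → ZMod 2) : eX d H = SD d H := by
  unfold eX SD
  rw [Finset.sum_filter]
  refine Finset.sum_congr rfl fun a _ => ?_
  have hne : NeZero d := ⟨hd⟩
  split_ifs with h
  · have h1 : (a : ℤ).gcd (d : ℤ) = 1 := by
      rw [Int.gcd_natCast_natCast]; exact h
    rcases jacobiSym.eq_one_or_neg_one h1 with h2 | h2
    · rw [h2, one_smul]
    · rw [h2, neg_smul, one_smul]
      exact ZMod.neg_eq_self_mod_two _
  · have h1 : jacobiSym (a : ℤ) d = 0 := by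
      rw [jacobiSym.eq_zero_iff_not_coprime]
      intro h2
      rw [Int.gcd_natCast_natCast] at h2
      exact h h2
    rw [h1, zero_smul]

/-! ### Linear algebra: the rank modulo `2` is at most the rank over `ℂ` -/

/-- Integral vectors independent modulo `2` are independent over `ℤ`. -/
private theorem li_int {κ : Type} [Fintype κ] {N : ℕ} (v : κ → Fin N → ℤ)
    (h : LinearIndependent (ZMod 2) (fun s : κ => fun k => ((v s k : ℤ) : ZMod 2)))
    (a : κ → ℤ) (ha : ∀ k, ∑ s, a s * v s k = 0) : ∀ s, a s = 0 := by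
  classical
  by_contra hne
  push Not at hne
  obtain ⟨s0, hs0⟩ := hne
  obtain ⟨b, hb, hg⟩ := Finset.extract_gcd a (s := Finset.univ) ⟨s0, Finset.mem_univ _⟩
  have hg0 : Finset.univ.gcd a ≠ 0 := by
    intro h0
    exact hs0 (Finset.gcd_eq_zero_iff.mp h0 s0 (Finset.mem_univ _))
  have hb0 : ∀ k, ∑ s, b s * v s k = 0 := by
    intro k
    have h1 := ha k
    have h2 : Finset.univ.gcd a * ∑ s, b s * v s k = 0 := by
      rw [Finset.mul_sum, ← h1]
      refine Finset.sum_congr rfl fun s hs => ?_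
      conv_rhs => rw [hb s hs]
      ring
    exact (mul_eq_zero.mp h2).resolve_left hg0
  have hz : ∀ s, ((b s : ℤ) : ZMod 2) = 0 := by
    rw [Fintype.linearIndependent_iff] at h
    refine h (fun s => ((b s : ℤ) : ZMod 2)) ?_
    funext k
    rw [Finset.sum_apply]
    simp only [Pi.smul_apply, smul_eq_mul, Pi.zero_apply]
    have h3 := congrArg (Int.cast : ℤ → ZMod 2) (hb0 k)
    push_cast at h3
    exact h3
  have hdvd : (2 : ℤ) ∣ Finset.univ.gcd b := by
    refine Finset.dvd_gcd fun s _ => ?_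
    have h4 := (ZMod.intCast_zmod_eq_zero_iff_dvd (b s) 2).mp (hz s)
    exact_mod_cast h4
  rw [hg] at hdvd
  norm_num at hdvd

/-- Integral vectors independent modulo `2` are independent over `ℂ`. -/
private theorem li_cplx {κ : Type} [Fintype κ] {N : ℕ} (v : κ → Fin N → ℤ)
    (h : LinearIndependent (ZMod 2) (fun s : κ => fun k => ((v s k : ℤ) : ZMod 2)))
    (a : κ → ℂ) (ha : ∀ k, ∑ s, a s * ((v s k : ℤ) : ℂ) = 0) : ∀ s, a s = 0 := by
  classical
  have hQ : LinearIndependent ℚ (fun s : κ => fun k => ((v s k : ℤ) : ℚ)) := by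
    rw [← LinearIndependent.iff_fractionRing ℤ ℚ, Fintype.linearIndependent_iff]
    intro g hg
    refine li_int v h g fun k => ?_
    have h1 := congrFun hg k
    rw [Finset.sum_apply] at h1
    simp only [Pi.smul_apply, zsmul_eq_mul, Pi.zero_apply] at h1
    exact_mod_cast h1
  intro s
  rw [← Module.forall_dual_apply_eq_zero_iff ℚ]
  intro f
  rw [Fintype.linearIndependent_iff] at hQ
  refine hQ (fun s => f (a s)) ?_ s
  funext k
  rw [Finset.sum_apply]
  simp only [Pi.smul_apply, smul_eq_mul, Pi.zero_apply]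
  have h2 := congrArg f (ha k)
  rw [map_sum, map_zero] at h2
  rw [← h2]
  refine Finset.sum_congr rfl fun s _ => ?_
  have h3 : a s * ((v s k : ℤ) : ℂ) = ((v s k : ℤ) : ℚ) • a s := by
    rw [Rat.smul_def]
    push_cast
    ring
  rw [h3, map_smul, smul_eq_mul]
  ring

/-- A subspace of functions on `I` containing `N` functions with integral values: its dimension is
at least the rank modulo `2` of the values. -/
private theorem finrank_ge {N : ℕ} (W : Submodule ℂ (ℕ → ℕ → ℂ)) [Module.Finite ℂ W]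
    (V : ℕ × ℕ → Fin N → ℤ)
    (hW : ∀ k, (fun i j => ((V (i, j) k : ℤ) : ℂ)) ∈ W) :
    Module.finrank (ZMod 2) (Submodule.span (ZMod 2)
      (Set.range fun q : ℕ × ℕ => fun k => ((V q k : ℤ) : ZMod 2))) ≤ Module.finrank ℂ W := by
  classical
  obtain ⟨κ, a, hinj, hspan, hli⟩ := exists_linearIndependent' (K := ZMod 2)
    (fun q : ℕ × ℕ => fun k : Fin N => ((V q k : ℤ) : ZMod 2))
  have hfin : Finite κ := hli.finite
  have := Fintype.ofFinite κ
  rw [← hspan, finrank_span_eq_card hli]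
  let Φ : W →ₗ[ℂ] (κ → ℂ) :=
    { toFun := fun f s => (f : ℕ → ℕ → ℂ) (a s).1 (a s).2
      map_add' := fun f g => by funext s; rfl
      map_smul' := fun c f => by funext s; rfl }
  have hsurj : LinearMap.range Φ = ⊤ := by
    by_contra hne
    obtain ⟨ψ, hψ, hle⟩ := Submodule.exists_le_ker_of_lt_top _ (lt_top_iff_ne_top.mpr hne)
    apply hψ
    have hc := li_cplx (fun s => V (a s)) hli (fun s => ψ (fun j => if s = j then 1 else 0)) (by
      intro k
      have h1 : Φ ⟨_, hW k⟩ ∈ LinearMap.ker ψ := hle ⟨_, rfl⟩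
      rw [LinearMap.mem_ker, LinearMap.pi_apply_eq_sum_univ] at h1
      refine Eq.trans ?_ h1
      refine Finset.sum_congr rfl fun s _ => ?_
      rw [smul_eq_mul, mul_comm]
      rfl)
    refine LinearMap.ext fun x => ?_
    rw [LinearMap.pi_apply_eq_sum_univ, LinearMap.zero_apply]
    refine Finset.sum_eq_zero fun s _ => ?_
    rw [hc s, smul_zero]
  calc Fintype.card κ = Module.finrank ℂ (κ → ℂ) := (Module.finrank_fintype_fun_eq_card ℂ).symm
    _ = Module.finrank ℂ (LinearMap.range Φ) := by rw [hsurj, finrank_top]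
    _ ≤ Module.finrank ℂ W := LinearMap.finrank_range_le Φ

/-! ### The theorem -/

private theorem Sym_mono {R : Type} [AddCommGroup R] {r m n : ℕ} (hmn : m ≤ n) {G : ℤ → ℤ → R}
    (h : Sym r m G) : Sym r n G :=
  ⟨h.1, fun a b c d hd hb hc => h.2 a b c d hd hb ((pow_dvd_pow 2 hmn).trans hc)⟩

/-- A symbol modulo `2` of level `2r + 2` on which `SD d` does not vanish. -/
private theorem exists_ne (hN : Nvc2) (d r : ℕ) (hd : Odd d)
    (hr : d * (4 * Nat.log 2 d + 7) < 2 ^ r) :
    ∃ g : ℤ → ℤ → ZMod 2, Sym 0 (2 * r + 2) g ∧ SD d g ≠ 0 := by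
  obtain ⟨G, hG, h⟩ := hN (ZMod 2) inferInstance d r (fun _ => 1) hd hr
    (fun _ _ _ => one_ne_zero)
  refine ⟨G, hG, ?_⟩
  unfold SD
  simpa using h

/-- LBX2 without the hypotheses which are not used. -/
theorem hLbx3 : Bas → Spn → Nf → Nvc2 → Rk → Lbx2 := by
  intro hBas hSpn hNf hNvc hRk d r n hd hsq hr hn hrn hfin
  have hd0 : 0 < d := hd.pos
  have hr3 : 3 ≤ r := by
    by_contra hlt
    have h1 : 1 * 7 ≤ d * (4 * Nat.log 2 d + 7) := Nat.mul_le_mul hd0 (by omega)
    have h3 : 2 ^ r ≤ 2 ^ 2 := Nat.pow_le_pow_right (by norm_num) (by omega)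
    omega
  obtain ⟨g0, hg0, hg0ne⟩ := exists_ne hNvc d r hd hr
  obtain ⟨S, c, hSc⟩ := hSpn n d hn hd hsq
  -- a term of low weight
  obtain ⟨p, hpS, hcp, hpw⟩ : ∃ p ∈ S, c p ≠ 0 ∧ 3 * p.1 + 4 * p.2 ≤ 2 ^ (r + 2) := by
    have h1 := hSc g0 (Sym_mono hrn hg0) 0 0
    simp only [Function.iterate_zero, id_eq, zero_add] at h1
    rw [h1] at hg0ne
    obtain ⟨p, hpS, hp⟩ := Finset.exists_ne_zero_of_sum_ne_zero hg0ne
    refine ⟨p, hpS, left_ne_zero_of_mul hp, ?_⟩
    by_contra hlt
    apply right_ne_zero_of_mul hp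
    refine hNf (2 * r + 2) g0 (by omega) hg0 p.1 p.2 ?_
    have h2 : (2 * r + 2) / 2 + 1 = r + 2 := by omega
    rw [h2]
    omega
  obtain ⟨G, ij, hG, hdet⟩ := hBas n hn
  -- the reductions
  let gb : Fin (DD n) → ℤ → ℤ → ZMod 2 := fun k p q => Int.castAddHom (ZMod 2) (G k p q)
  have hgb : ∀ k, Sym 0 n (gb k) := fun k => Sym_map _ (hG k)
  let E : ℕ → ℕ → Fin (DD n) → ZMod 2 := fun i j k => ev 1 (gb k) i j
  have hE : ∀ i j k, E i j k = ((ev 1 (G k) i j : ℤ) : ZMod 2) := fun i j k =>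
    ev_map (Int.castAddHom (ZMod 2)) 1 (G k) i j
  have hE0 : ∀ i j : ℕ, 2 ^ (n / 2 + 1) < 3 * i + 4 * j → E i j = 0 := by
    intro i j hij
    funext k
    exact hNf n (gb k) hn (hgb k) i j hij
  have hEspan : Submodule.span (ZMod 2) (Set.range fun p : ℕ × ℕ => E p.1 p.2) = ⊤ := by
    have h1 : LinearIndependent (ZMod 2) (fun l : Fin (DD n) => E (ij l).1 (ij l).2) := by
      have h2 : LinearIndependent (ZMod 2)
          ((Matrix.of fun k l => ev 1 (G k) (ij l).1 (ij l).2).map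
            (Int.castRingHom (ZMod 2))).col := by
        rw [Matrix.linearIndependent_cols_iff_isUnit, Matrix.isUnit_iff_isUnit_det]
        have h3 := (Int.castRingHom (ZMod 2)).map_det
          (Matrix.of fun k l => ev 1 (G k) (ij l).1 (ij l).2)
        rw [RingHom.mapMatrix_apply] at h3
        rw [← h3, isUnit_iff_ne_zero]
        intro h4
        have h5 : (2 : ℤ) ∣ Matrix.det (Matrix.of fun k l => ev 1 (G k) (ij l).1 (ij l).2) := by
          have h6 := (ZMod.intCast_zmod_eq_zero_iff_dvd _ 2).mp h4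
          exact_mod_cast h6
        rw [← even_iff_two_dvd, ← Int.not_odd_iff_even] at h5
        exact h5 hdet
      convert h2 using 2
      funext k
      exact hE _ _ _
    have h7 := h1.span_eq_top_of_card_eq_finrank' (by simp)
    refine top_le_iff.mp ?_
    rw [← h7]
    refine Submodule.span_mono ?_
    rintro _ ⟨l, rfl⟩
    exact ⟨ij l, rfl⟩
  have hmain := hRk (ZMod 2) inferInstance (DD n) (2 ^ (n / 2 + 1)) (2 ^ (r + 2)) E S c hEspan hE0
    ⟨p, hpS, hcp, hpw⟩
  refine hmain.trans (Nat.add_le_add_right ?_ _)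
  -- comparison with `ℂ`
  let V : ℕ × ℕ → Fin (DD n) → ℤ := fun q k =>
    eX d ((Tl 3 1)^[q.1] ((Tl 5 1)^[q.2] (G k)))
  have hV : (fun q : ℕ × ℕ => ∑ p ∈ S, c p • E (q.1 + p.1) (q.2 + p.2)) =
      fun q : ℕ × ℕ => fun k => ((V q k : ℤ) : ZMod 2) := by
    funext q k
    have h1 := hSc (gb k) (hgb k) q.1 q.2
    rw [← eX_eq_SD d hd0.ne', eX_iter_map] at h1
    rw [Finset.sum_apply]
    simp only [Pi.smul_apply, smul_eq_mul]
    exact h1.symm
  have hV' := congrArg Set.range hV
  rw [hV']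
  have := hfin
  refine finrank_ge ((XS n).map (evX d)) V fun k => ?_
  refine ⟨fun p q => Int.castAddHom ℂ (G k p q), Sym_map _ (hG k), ?_⟩
  funext i j
  rw [evX_apply, eX_iter_map]
  rfl

theorem hLbx2 : StLbx2 := fun h1 h2 h3 h4 h5 _ _ => hLbx3 h1 h2 h3 h4 h5

end Pool.Agent.Helper76.TX
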