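import Pool.Agent.Helper76.TX.StNv2

/-!
# Project TU, module NVA2: the functional of the paths, sharper form (after Helper16)
-/

set_option autoImplicit false

namespace Pool.Agent.Helper76.TX

open Pool.Agent.Helper14.CV

private lemma res (n : ℤ) (D : ℕ) (hD : Odd D) : ∃ j X : ℤ, n = j + X * D ∧ |2 * j| < D := by
  have hD0 : (0 : ℤ) < D := by exact_mod_cast hD.pos
  have e := Int.emod_add_mul_ediv n D
  have h1 := Int.emod_nonneg n hD0.ne'
  have h2 := Int.emod_lt_of_pos n hD0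
  obtain ⟨k, hk⟩ := hD
  have hk' : (D : ℤ) = 2 * k + 1 := by exact_mod_cast hk
  generalize n % (D : ℤ) = u at e h1 h2
  generalize n / (D : ℤ) = X at e
  by_cases h : 2 * u < D
  · refine ⟨u, X, by linarith [mul_comm (D : ℤ) X], ?_⟩
    rw [abs_lt]
    constructor <;> linarith
  · refine ⟨u - D, X + 1, by linarith [mul_comm (D : ℤ) X], ?_⟩
    rw [abs_lt]
    constructor
    · have h3 : (D : ℤ) ≤ 2 * u := not_lt.1 h
      have h4 : (D : ℤ) ≠ 2 * u := by omega
      have h5 : (D : ℤ) < 2 * u := lt_of_le_of_ne h3 h4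
      linarith
    · linarith

private lemma cop {D r b : ℕ} (hD : Odd D) (hb : Nat.Coprime b D) {j X : ℤ}
    (e : (2 : ℤ) ^ r * b = j + X * D) : IsCoprime (2 * j) (D : ℤ) := by
  have h2 : IsCoprime (2 : ℤ) (D : ℤ) := by
    have : IsCoprime ((2 : ℕ) : ℤ) (D : ℤ) := Nat.isCoprime_iff_coprime.2 (Nat.coprime_two_left.2 hD)
    exact_mod_cast this
  have hbz : IsCoprime (b : ℤ) (D : ℤ) := Nat.isCoprime_iff_coprime.2 hb
  have h3 : IsCoprime ((2 : ℤ) ^ r * b) (D : ℤ) := h2.pow_left.mul_left hbz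
  rw [e] at h3
  exact h2.mul_left h3.of_add_mul_right_left

private lemma dist {D r M : ℕ} (hD : Odd D) (hM : D * (M + 1) < 2 ^ r) {b b' : ℕ} (hb : b < D)
    (hb' : b' < D) {j X j' X' m : ℤ} (e : (2 : ℤ) ^ r * b = j + X * D)
    (e' : (2 : ℤ) ^ r * b' = j' + X' * D) (hj : |2 * j| < D) (hj' : |2 * j'| < D) (hm : |m| ≤ M)
    (h : (X : ZMod (2 ^ r)) + (m : ZMod (2 ^ r)) = X') : b = b' ∧ m = 0 := by
  have hD0 : (0 : ℤ) < D := by exact_mod_cast hD.pos
  have hMz : (D : ℤ) * (M + 1) < 2 ^ r := by exact_mod_cast hM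
  have h1 : ((2 : ℤ) ^ r) ∣ X + m - X' := by
    have h0 : ((X + m - X' : ℤ) : ZMod (2 ^ r)) = 0 := by
      push_cast
      rw [h, sub_self]
    have := (ZMod.intCast_zmod_eq_zero_iff_dvd _ (2 ^ r)).1 h0
    exact_mod_cast this
  have h2 : ((2 : ℤ) ^ r) ∣ (j' - j + D * m) := by
    obtain ⟨k, hk⟩ := h1
    refine ⟨D * k - (b - b'), ?_⟩
    linear_combination (D : ℤ) * hk + e - e'
  rw [abs_lt] at hj hj'
  rw [abs_le] at hm
  have hDm1 : (D : ℤ) * m ≤ D * M := mul_le_mul_of_nonneg_left hm.2 hD0.le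
  have hDm2 : -((D : ℤ) * M) ≤ D * m := by
    have := mul_le_mul_of_nonneg_left hm.1 hD0.le
    linarith
  have h3 : j' - j + D * m = 0 := by
    apply Int.eq_zero_of_abs_lt_dvd h2
    rw [abs_lt]
    constructor <;> linarith
  have h4 : m = 0 := by
    by_contra hne
    rcases lt_or_gt_of_ne hne with hlt | hgt
    · have : (D : ℤ) * m ≤ D * (-1) := mul_le_mul_of_nonneg_left (by omega) hD0.le
      linarith
    · have : (D : ℤ) * 1 ≤ D * m := mul_le_mul_of_nonneg_left (by omega) hD0.le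
      linarith
  refine ⟨?_, h4⟩
  rw [h4, mul_zero, add_zero] at h3
  have h5 : (D : ℤ) ∣ (2 : ℤ) ^ r * ((b : ℤ) - b') := ⟨X - X', by linear_combination e - e' - h3⟩
  have h6 : IsCoprime (D : ℤ) ((2 : ℤ) ^ r) := by
    have : IsCoprime ((2 : ℕ) : ℤ) (D : ℤ) := Nat.isCoprime_iff_coprime.2 (Nat.coprime_two_left.2 hD)
    have h7 : IsCoprime (2 : ℤ) (D : ℤ) := by exact_mod_cast this
    exact h7.pow_left.symm
  have h8 : (D : ℤ) ∣ (b : ℤ) - b' := h6.dvd_of_dvd_mul_left h5
  have h9 : (b : ℤ) - b' = 0 := by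
    apply Int.eq_zero_of_abs_lt_dvd h8
    rw [abs_lt]
    constructor <;> omega
  omega

private lemma sum_map_apply {K : Type} [Field K] {V : Type} [AddCommGroup V] [Module K V] {T : Type}
    (L : List T) (f : T → V →ₗ[K] K) (v : V) : (L.map f).sum v = (L.map fun t => f t v).sum := by
  induction L with
  | nil => simp
  | cons a L ih => simp only [List.map_cons, List.sum_cons, LinearMap.add_apply, ih]

private lemma sum_map_zero {K : Type} [AddCommMonoid K] {T : Type} (L : List T) (f : T → K)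
    (h : ∀ t ∈ L, f t = 0) : (L.map f).sum = 0 := by
  apply List.sum_eq_zero
  intro x hx
  obtain ⟨t, ht, rfl⟩ := List.mem_map.1 hx
  exact h t ht

theorem hNva2 : StNva2 := by
  intro hP hE K _ D r M c hD hM
  classical
  have hDpos : 0 < D := hD.pos
  have hDr : D < 2 ^ r := lt_of_le_of_lt (Nat.le_mul_of_pos_right D (Nat.succ_pos M)) hM
  have hDr1 : (D : ℤ) < 2 ^ (r + 1) := by
    have h1 : D < 2 ^ (r + 1) := lt_trans hDr (Nat.pow_lt_pow_right (by norm_num) (by omega))
    exact_mod_cast h1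
  -- data for each b
  have key : ∀ b : ℕ, ∃ (j X : ℤ) (L1 L3 : List (ℤ × ZMod (2 ^ r) × ZMod (2 ^ r))),
      Nat.Coprime b D → ((2 : ℤ) ^ r * b = j + X * D ∧ |2 * j| < D ∧
        L1.length ≤ Nat.log 2 D + 1 ∧ L3.length ≤ Nat.log 2 D + 1 ∧ (∀ t ∈ L1, t.2.2 ≠ 0) ∧
        ∀ G : ℤ → ℤ → K, Sym (r + 1) (r + 1) G →
          G (2 ^ (r + 1) * b) D - G 1 0 =
            (L1.map fun t => t.1 • edgeF 1 1 0 0 1 G t.2.1 t.2.2).sum +
            (L3.map fun t => t.1 • edgeF 1 1 1 0 1 G t.2.1 t.2.2).sum -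
            edgeF 1 1 0 0 1 G (X : ZMod (2 ^ r)) (0 : ZMod (2 ^ r))) := by
    intro b
    by_cases hb : Nat.Coprime b D
    · obtain ⟨j, X, e, hj⟩ := res ((2 : ℤ) ^ r * b) D hD
      obtain ⟨L1, L3, h1, h3, h4, h5⟩ := hP r X (2 * j) D (by exact_mod_cast hDpos) hDr1 hj.le
        (cop hD hb e)
      rw [Int.toNat_natCast] at h1 h3
      refine ⟨j, X, L1, L3, fun _ => ⟨e, hj, h1, h3, h4, fun G hG => ?_⟩⟩
      have h6 := h5 K inferInstance G hG
      have h7 := hE K inferInstance 1 r r G hG 1 0 0 1 (Or.inl one_ne_zero) (Or.inr one_ne_zero)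
        (X : ZMod (2 ^ r)) (0 : ZMod (2 ^ r)) 1 X 0 1 ⟨by ring, by push_cast; ring, by push_cast; ring⟩
      have e1 : (2 : ℤ) ^ (r + 1) * b = 2 * j + 2 * X * D := by
        rw [pow_succ]
        linear_combination 2 * e
      rw [e1]
      have e2 : edgeF 1 1 0 0 1 G (X : ZMod (2 ^ r)) (0 : ZMod (2 ^ r)) = G 1 0 - G (2 * X) 1 := by
        rw [h7]
        congr 1 <;> congr 1 <;> ring
      rw [e2, ← h6]
      ring
    · exact ⟨0, 0, [], [], fun h => absurd h hb⟩
  choose j X L1 L3 hk using key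
  let xb : ℕ → ZMod (2 ^ r) := fun b => (X b : ZMod (2 ^ r))
  let S : Finset ℕ := (Finset.range D).filter (fun b => Nat.Coprime b D)
  have hS : ∀ b ∈ S, b < D ∧ Nat.Coprime b D := by
    intro b hb
    have := Finset.mem_filter.1 hb
    exact ⟨Finset.mem_range.1 this.1, this.2⟩
  have hScard : S.card ≤ D.totient := by
    rw [Nat.totient]
    apply le_of_eq
    congr 1
    apply Finset.filter_congr
    intro x _
    exact Nat.coprime_comm
  let Fn : Type := ZMod (2 ^ r) → ZMod (2 ^ r) → K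
  let e1 : ZMod (2 ^ r) × ZMod (2 ^ r) → (Fn × Fn →ₗ[K] K) := fun p =>
    (LinearMap.proj p.2).comp ((LinearMap.proj p.1).comp (LinearMap.fst K Fn Fn))
  let e3 : ZMod (2 ^ r) × ZMod (2 ^ r) → (Fn × Fn →ₗ[K] K) := fun p =>
    (LinearMap.proj p.2).comp ((LinearMap.proj p.1).comp (LinearMap.snd K Fn Fn))
  have e1a : ∀ p F, e1 p F = F.1 p.1 p.2 := fun p F => rfl
  have e3a : ∀ p F, e3 p F = F.2 p.1 p.2 := fun p F => rfl
  let Ψ : Fn × Fn →ₗ[K] K := ∑ b ∈ S, c b • (((L1 b).map fun t => t.1 • e1 t.2).sum +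
    ((L3 b).map fun t => t.1 • e3 t.2).sum - e1 (xb b, 0))
  have hΨ : ∀ F, Ψ F = ∑ b ∈ S, c b * (((L1 b).map fun t => t.1 • F.1 t.2.1 t.2.2).sum +
      ((L3 b).map fun t => t.1 • F.2 t.2.1 t.2.2).sum - F.1 (xb b) 0) := by
    intro F
    simp only [Ψ]
    rw [LinearMap.sum_apply]
    refine Finset.sum_congr rfl fun b _ => ?_
    rw [LinearMap.smul_apply, LinearMap.sub_apply, LinearMap.add_apply, sum_map_apply,
      sum_map_apply, smul_eq_mul]
    rfl
  have hsing : ∀ (p t : ZMod (2 ^ r) × ZMod (2 ^ r)), t ≠ p →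
      (Function.curry (Pi.single p (1 : K)) : Fn) t.1 t.2 = 0 := by
    intro p t h
    show (Pi.single p (1 : K) : ZMod (2 ^ r) × ZMod (2 ^ r) → K) t = 0
    rw [Pi.single_apply, if_neg h]
  have hline : ∀ x : ZMod (2 ^ r), Ψ (Function.curry (Pi.single (x, 0) 1), 0) =
      ∑ b ∈ S, c b * (-(if xb b = x then 1 else 0)) := by
    intro x
    rw [hΨ]
    refine Finset.sum_congr rfl fun b hb => ?_
    obtain ⟨_, _, _, _, h4, _⟩ := hk b (hS b hb).2
    have z1 : ((L1 b).map fun t => t.1 •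
        (Function.curry (Pi.single ((x, 0) : ZMod (2 ^ r) × ZMod (2 ^ r)) (1 : K)) : Fn)
          t.2.1 t.2.2).sum = 0 := by
      apply sum_map_zero
      intro t ht
      rw [hsing (x, 0) t.2 (fun h => h4 t ht (by rw [h])), smul_zero]
    have z3 : ((L3 b).map fun t => t.1 • ((0 : Fn) t.2.1 t.2.2)).sum = 0 := by
      apply sum_map_zero
      intro t _
      show t.1 • (0 : K) = 0
      rw [smul_zero]
    have z5 : (Function.curry (Pi.single ((x, 0) : ZMod (2 ^ r) × ZMod (2 ^ r)) (1 : K)) : Fn)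
        (xb b) 0 = if xb b = x then 1 else 0 := by
      show (Pi.single ((x, 0) : ZMod (2 ^ r) × ZMod (2 ^ r)) (1 : K) :
        ZMod (2 ^ r) × ZMod (2 ^ r) → K) (xb b, 0) = _
      rw [Pi.single_apply]
      congr 1
      simp
    show c b * (((L1 b).map fun t => t.1 •
        (Function.curry (Pi.single ((x, 0) : ZMod (2 ^ r) × ZMod (2 ^ r)) (1 : K)) : Fn)
          t.2.1 t.2.2).sum + ((L3 b).map fun t => t.1 • ((0 : Fn) t.2.1 t.2.2)).sum -
        (Function.curry (Pi.single ((x, 0) : ZMod (2 ^ r) × ZMod (2 ^ r)) (1 : K)) : Fn)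
          (xb b) 0) = _
    rw [z1, z3, z5]
    ring
  refine ⟨Ψ, S.biUnion fun b => insert (xb b, 0) ((L1 b).map fun t => t.2).toFinset,
    S.biUnion fun b => ((L3 b).map fun t => t.2).toFinset, xb, ?_, ?_, ?_, ?_, ?_, ?_, ?_⟩
  · refine (Finset.card_biUnion_le_card_mul S _ (Nat.log 2 D + 2) fun b hb => ?_).trans
      (Nat.mul_le_mul_right _ hScard)
    obtain ⟨_, _, h1, _, _, _⟩ := hk b (hS b hb).2
    refine (Finset.card_insert_le _ _).trans ?_
    have h2 := List.toFinset_card_le ((L1 b).map fun t => t.2)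
    rw [List.length_map] at h2
    omega
  · refine (Finset.card_biUnion_le_card_mul S _ (Nat.log 2 D + 1) fun b hb => ?_).trans
      (Nat.mul_le_mul_right _ hScard)
    obtain ⟨_, _, _, h3, _, _⟩ := hk b (hS b hb).2
    have h2 := List.toFinset_card_le ((L3 b).map fun t => t.2)
    rw [List.length_map] at h2
    omega
  · intro p hp
    rw [hΨ]
    refine Finset.sum_eq_zero fun b hb => ?_
    have hpb : p ∉ (insert (xb b, 0) ((L1 b).map fun t => t.2).toFinset : Finset _) := fun h =>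
      hp (Finset.mem_biUnion.2 ⟨b, hb, h⟩)
    rw [Finset.mem_insert, not_or] at hpb
    have z1 : ((L1 b).map fun t => t.1 •
        (Function.curry (Pi.single p (1 : K)) : Fn) t.2.1 t.2.2).sum = 0 := by
      apply sum_map_zero
      intro t ht
      rw [hsing p t.2 (fun h => hpb.2 (List.mem_toFinset.2 (List.mem_map.2 ⟨t, ht, h⟩))), smul_zero]
    have z3 : ((L3 b).map fun t => t.1 • ((0 : Fn) t.2.1 t.2.2)).sum = 0 := by
      apply sum_map_zero
      intro t _
      show t.1 • (0 : K) = 0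
      rw [smul_zero]
    have z5 : (Function.curry (Pi.single p (1 : K)) : Fn) (xb b) 0 = 0 :=
      hsing p (xb b, 0) (fun h => hpb.1 h.symm)
    show c b * (((L1 b).map fun t => t.1 •
        (Function.curry (Pi.single p (1 : K)) : Fn) t.2.1 t.2.2).sum +
      ((L3 b).map fun t => t.1 • ((0 : Fn) t.2.1 t.2.2)).sum -
      (Function.curry (Pi.single p (1 : K)) : Fn) (xb b) 0) = 0
    rw [z1, z3, z5]
    ring
  · intro p hp
    rw [hΨ]
    refine Finset.sum_eq_zero fun b hb => ?_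
    have hpb : p ∉ (((L3 b).map fun t => t.2).toFinset : Finset _) := fun h =>
      hp (Finset.mem_biUnion.2 ⟨b, hb, h⟩)
    have z1 : ((L1 b).map fun t => t.1 • ((0 : Fn) t.2.1 t.2.2)).sum = 0 := by
      apply sum_map_zero
      intro t _
      show t.1 • (0 : K) = 0
      rw [smul_zero]
    have z3 : ((L3 b).map fun t => t.1 •
        (Function.curry (Pi.single p (1 : K)) : Fn) t.2.1 t.2.2).sum = 0 := by
      apply sum_map_zero
      intro t ht
      rw [hsing p t.2 (fun h => hpb (List.mem_toFinset.2 (List.mem_map.2 ⟨t, ht, h⟩))), smul_zero]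
    show c b * (((L1 b).map fun t => t.1 • ((0 : Fn) t.2.1 t.2.2)).sum +
      ((L3 b).map fun t => t.1 •
        (Function.curry (Pi.single p (1 : K)) : Fn) t.2.1 t.2.2).sum - (0 : K)) = 0
    rw [z1, z3]
    ring
  · intro G hG
    rw [hΨ]
    refine Finset.sum_congr rfl fun b hb => ?_
    obtain ⟨_, _, _, _, _, h6⟩ := hk b (hS b hb).2
    rw [h6 G hG]
  · intro b hb hbc
    have hbS : b ∈ S := Finset.mem_filter.2 ⟨Finset.mem_range.2 hb, hbc⟩
    have hkb := hk b hbc
    constructor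
    · rw [hline, Finset.sum_eq_single b]
      · simp
      · intro b' hb' hne
        have hkb' := hk b' (hS b' hb').2
        rw [if_neg, neg_zero, mul_zero]
        intro h
        have := dist hD hM (hS b' hb').1 hb hkb'.1 hkb.1 hkb'.2.1 hkb.2.1 (m := 0) (by simp)
          (by push_cast; rw [add_zero]; exact h)
        exact hne this.1
      · intro h
        exact absurd hbS h
    · intro m hm hmM
      rw [hline]
      refine Finset.sum_eq_zero fun b' hb' => ?_
      have hkb' := hk b' (hS b' hb').2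
      rw [if_neg, neg_zero, mul_zero]
      intro h
      have := dist hD hM hb (hS b' hb').1 hkb.1 hkb'.1 hkb.2.1 hkb'.2.1 hmM h.symm
      exact hm this.2
  · intro b hb hbc b' hb' hbc' m hm h
    have hkb := hk b hbc
    have hkb' := hk b' hbc'
    exact dist hD hM hb hb' hkb.1 hkb'.1 hkb.2.1 hkb'.2.1 hm h

end Pool.Agent.Helper76.TX
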