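import Pool.Agent.Helper1.CV.M_HkT
import Pool.Agent.Helper2.CV.M_Com
import Pool.Agent.Helper2.CV.M_Lvl
import Pool.Agent.Helper4.TT.M_RmapS
import Pool.Agent.Helper5.TX.M_Nf
import Pool.Agent.Helper6.CV.M_B3b
import Pool.Agent.Helper6.CV.M_HkF
import Pool.Agent.Helper6.TX.M_Nvb2
import Pool.Agent.Helper7.CV.M_A1
import Pool.Agent.Helper7.CV.M_PlU
import Pool.Agent.Helper7.CV.M_Prd
import Pool.Agent.Helper7.TX.M_AN2
import Pool.Agent.Helper8.TT.M_N4W
import Pool.Agent.Helper9.CV.M_Rmap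
import Pool.Agent.Helper10.CV.M_A1b
import Pool.Agent.Helper10.CV.M_N1
import Pool.Agent.Helper10.CV.M_Sub
import Pool.Agent.Helper13.TX.M_AN4
import Pool.Agent.Helper13.WK.M_Nex
import Pool.Agent.Helper14.CV.M_Bb
import Pool.Agent.Helper14.CV.M_Nrm
import Pool.Agent.Helper15.CV.M_O1
import Pool.Agent.Helper16.CV.M_Hk3
import Pool.Agent.Helper16.CV.M_N3
import Pool.Agent.Helper16.WK.M_EvU
import Pool.Agent.Helper19.CV.M_Unb
import Pool.Agent.Helper21.CV.M_A8
import Pool.Agent.Helper21.CV.M_KerO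
import Pool.Agent.Helper21.TW.M_Nil
import Pool.Agent.Helper22.CV.M_CoreOf
import Pool.Agent.Helper24.CV.M_Lifp
import Pool.Agent.Helper24.TX.M_Ubs
import Pool.Agent.Helper26.CV.M_A4
import Pool.Agent.Helper26.CV.M_Grp
import Pool.Agent.Helper28.CV.M_Lif
import Pool.Agent.Helper28.TX.M_B3x
import Pool.Agent.Helper29.TT.M_O1S
import Pool.Agent.Helper29.TX.M_AN3
import Pool.Agent.Helper32.TX.M_Zrx
import Pool.Agent.Helper32.WK.M_Lft
import Pool.Agent.Helper33.TX.M_Evx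
import Pool.Agent.Helper34.TX.M_Xd
import Pool.Agent.Helper35.TT.M_KerOS
import Pool.Agent.Helper36.CV.M_Ex
import Pool.Agent.Helper36.CV.M_N4
import Pool.Agent.Helper36.TT.M_A8W
import Pool.Agent.Helper36.TT.M_E1S
import Pool.Agent.Helper37.WK.M_Dim
import Pool.Agent.Helper38.CV.M_A6a
import Pool.Agent.Helper38.CV.M_Far
import Pool.Agent.Helper38.CV.M_Led
import Pool.Agent.Helper38.CV.M_PlA
import Pool.Agent.Helper42.TX.M_AN6
import Pool.Agent.Helper45.CV.M_Low0
import Pool.Agent.Helper47.CV.M_HkW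
import Pool.Agent.Helper47.CV.M_Ld5
import Pool.Agent.Helper47.TW.M_Ind
import Pool.Agent.Helper47.WK.M_K
import Pool.Agent.Helper51.TT.M_A6M
import Pool.Agent.Helper55.CV.M_A2
import Pool.Agent.Helper55.CV.M_Fex
import Pool.Agent.Helper55.TW.M_Cm
import Pool.Agent.Helper55.TX.M_AN5
import Pool.Agent.Helper57.CV.M_Ld3
import Pool.Agent.Helper58.CV.M_Cnt
import Pool.Agent.Helper61.CV.M_DimE
import Pool.Agent.Helper61.TX.M_AN1
import Pool.Agent.Helper66.TT.M_DimES
import Pool.Agent.Helper66.TW.M_Rk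
import Pool.Agent.Helper69.CV.M_Tri
import Pool.Agent.Helper69.TW.M_Cm2
import Pool.Agent.Helper69.WK.M_Bse
import Pool.Agent.Helper71.CV.M_A2c
import Pool.Agent.Helper71.CV.M_B3a
import Pool.Agent.Helper71.CV.M_DimO
import Pool.Agent.Helper71.CV.M_Rel
import Pool.Agent.Helper71.TT.M_BalS
import Pool.Agent.Helper71.TX.M_Ptl
import Pool.Agent.Helper72.CV.M_A3
import Pool.Agent.Helper72.CV.M_LowA
import Pool.Agent.Helper75.CV.M_Ev
import Pool.Agent.Helper75.CV.M_Hk5
import Pool.Agent.Helper76.CV.M_UBof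
import Pool.Agent.Helper76.TT.M_DimFS
import Pool.Agent.Helper76.TX.M_Bsx
import Pool.Agent.Helper76.TX.M_Cnx2
import Pool.Agent.Helper76.TX.M_Lbx2
import Pool.Agent.Helper76.TX.M_Nva2
import Pool.Agent.Helper76.TX.M_Tud2
import Pool.Agent.Helper76.WK.M_Ks
import Pool.Agent.Helper77.TX.M_Jac
import Pool.Agent.Helper78.CV.M_HkB
import Pool.Agent.Helper78.CV.M_Trc
import Pool.Agent.Helper79.CV.M_A6b
import Pool.Agent.Helper79.TX.M_Upx
import Pool.Agent.Helper80.CV.M_E1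
import Pool.Agent.Helper80.TX.M_Grid
import Pool.Agent.Helper80.TX.M_LTE
import Pool.Agent.Helper80.TX.M_Spn
import Pool.Agent.Helper81.CV.M_Sur
import Pool.Agent.Helper81.TX.M_Xa
import Pool.Agent.Helper81.WK.M_Bas
import Pool.Agent.Helper82.CV.M_Bal
import Pool.Agent.Helper83.TX.M_Td
import Pool.Agent.Helper86.CV.M_P345
import Pool.Agent.Helper86.CV.M_Uni
import Pool.Agent.Helper86.TT.M_P4W
import Pool.Agent.Helper86.TX.M_Nvc2
import Pool.Agent.Helper86.TX.M_Nws
import Pool.Agent.Helper86.WK.M_Crm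
import Pool.Agent.Helper87.CV.M_P12
import Pool.Agent.Helper90.CV.M_DimF
import Pool.Agent.Helper92.CV.M_Itr
import Pool.Agent.Helper92.TX.M_LTC
import Pool.Agent.Helper96.CV.M_A6
import Pool.Agent.Helper96.CV.M_LBof
import Pool.Agent.Helper97.CV.M_HkS
import Pool.Agent.Helper97.TX.M_Pth
import Pool.Agent.Helper97.WK.M_Lfm
import Pool.Agent.Helper98.CV.M_Edg
import Pool.Agent.Helper99.CV.M_Hk
import Pool.Agent.Helper99.CV.M_N2
import Pool.Agent.Helper99.TT.M_DimOS

/-!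
# Project TU: assembly
-/

set_option autoImplicit false

namespace Pool.Agent.Helper76.TX

open Pool.Agent.Helper14.CV Pool.Agent.Helper28.WK Pool.Agent.Helper14.TT Pool.Agent.Helper78.TW

/-- The algebraic part: counting of new symbols. -/
theorem asmCnx : Evx ∧ Cnx2 := by
  have hNrm := Pool.Agent.Helper14.CV.hNrm
  have hBb := Pool.Agent.Helper14.CV.hBb
  have n1 := Pool.Agent.Helper10.CV.hN1
  have hk := Pool.Agent.Helper99.CV.hHk n1
  have hkS := Pool.Agent.Helper97.CV.hHkS hk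
  have hkW := Pool.Agent.Helper47.CV.hHkW hk
  have hkT := Pool.Agent.Helper1.CV.hHkT hk
  have far := Pool.Agent.Helper38.CV.hFar
  have com := Pool.Agent.Helper2.CV.hCom
  have lvl := Pool.Agent.Helper2.CV.hLvl hNrm
  have hev := Pool.Agent.Helper75.CV.hEv hkS hkW hkT hNrm
  have b3a := Pool.Agent.Helper71.CV.hB3a hNrm com lvl hev
  have b3b := Pool.Agent.Helper6.CV.hB3b far hNrm com hev
  -- upper bound
  have plA := Pool.Agent.Helper38.CV.hPlA
  have plU := Pool.Agent.Helper7.CV.hPlU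
  have edg := Pool.Agent.Helper98.CV.hEdg plA plU
  have e1 := Pool.Agent.Helper80.CV.hE1 far plA edg
  have trc := Pool.Agent.Helper78.CV.hTrc
  have dimE := Pool.Agent.Helper61.CV.hDimE trc
  have o1 := Pool.Agent.Helper15.CV.hO1 far plA edg
  have kerO := Pool.Agent.Helper21.CV.hKerO Pool.Agent.Helper9.CV.hRmap
    (Pool.Agent.Helper71.CV.hDimO trc) (Pool.Agent.Helper90.CV.hDimF trc)
  have ub := Pool.Agent.Helper76.CV.hUBof Pool.Agent.Helper82.CV.hBal e1 o1 dimE kerO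
  -- lower bound
  have rel := Pool.Agent.Helper71.CV.hRel plA edg
  have ex := Pool.Agent.Helper36.CV.hEx far Pool.Agent.Helper55.CV.hFex plA
  have uni := Pool.Agent.Helper86.CV.hUni far edg
  have hkB := Pool.Agent.Helper78.CV.hHkB hk hkS
  have hkF := Pool.Agent.Helper6.CV.hHkF plA plU edg hkB
  have low0 := Pool.Agent.Helper45.CV.hLow0
  have prd := Pool.Agent.Helper7.CV.hPrd
  have sub := Pool.Agent.Helper10.CV.hSub low0 prd
  have grp := Pool.Agent.Helper26.CV.hGrp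
  have lowA := Pool.Agent.Helper72.CV.hLowA low0 grp sub
  have hk3 := Pool.Agent.Helper16.CV.hHk3 plA edg hkF
  have hk5 := Pool.Agent.Helper75.CV.hHk5 plA edg hkF
  have ld3 := Pool.Agent.Helper57.CV.hLd3 low0 grp lowA
  have ld5 := Pool.Agent.Helper47.CV.hLd5 low0 grp lowA
  have sur := Pool.Agent.Helper81.CV.hSur low0 grp lowA hBb
  have led := Pool.Agent.Helper38.CV.hLed low0 grp lowA hBb sur
  have itr := Pool.Agent.Helper92.CV.hItr rel hkB hk3 hk5 low0 ld3 ld5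
  have tri := Pool.Agent.Helper69.CV.hTri ex low0 hBb led itr
  have lif := Pool.Agent.Helper28.CV.hLif rel ex uni (Pool.Agent.Helper24.CV.hLifp grp)
  have lb := Pool.Agent.Helper96.CV.hLBof tri lif Pool.Agent.Helper19.CV.hUnb
    Pool.Agent.Helper58.CV.hCnt
  -- integral symbols and reduction modulo 2
  have bas := Pool.Agent.Helper81.WK.hBas tri lif Pool.Agent.Helper58.CV.hCnt
  have dim := Pool.Agent.Helper37.WK.hDim b3a b3b ub
  have nex := Pool.Agent.Helper13.WK.hNex b3a b3b ub lb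
  have bse := Pool.Agent.Helper69.WK.hBse far
  have evu := Pool.Agent.Helper16.WK.hEvU hk hkS
  have ks := Pool.Agent.Helper76.WK.hKs hNrm hev lvl com nex evu
  have kk := Pool.Agent.Helper47.WK.hK ks bse
  have lft := Pool.Agent.Helper32.WK.hLft rel ex uni Pool.Agent.Helper97.WK.hLfm
  have crm := Pool.Agent.Helper86.WK.hCrm bas dim lft
  have nil := Pool.Agent.Helper21.TW.hNil itr low0
  have cm := Pool.Agent.Helper69.TW.hCm2 hkS (Pool.Agent.Helper55.TW.hCm hkS)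
  -- the functional of the twist
  have td := Pool.Agent.Helper83.TX.hTd hkS
  have xa := Pool.Agent.Helper81.TX.hXa hk hkS hkW hkT hNrm com hev kk
  have xd := Pool.Agent.Helper34.TX.hXd crm xa
  have nf := Pool.Agent.Helper5.TX.hNf lft nil
  have spn := Pool.Agent.Helper80.TX.hSpn td xd nf cm
  -- nonvanishing
  have pth := Pool.Agent.Helper97.TX.hPth edg
  have nvc2 := Pool.Agent.Helper86.TX.hNvc2 (Pool.Agent.Helper6.TX.hNvb2
    Pool.Agent.Helper80.TX.hGrid (hNva2 pth edg) ex)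
  have lbx := hLbx3 bas spn nf nvc2 Pool.Agent.Helper66.TW.hRk
  -- upper bound with signs
  have evx := Pool.Agent.Helper33.TX.hEvx hkS hkW hkT hNrm
  have b3x := Pool.Agent.Helper28.TX.hB3x hNrm com lvl evx
  have kerOS := Pool.Agent.Helper35.TT.hKerOS Pool.Agent.Helper4.TT.hRmapS
    Pool.Agent.Helper99.TT.hDimOS Pool.Agent.Helper76.TT.hDimFS
  have ubs := Pool.Agent.Helper24.TX.hUbs Pool.Agent.Helper71.TT.hBalS
    (Pool.Agent.Helper36.TT.hE1S far plA edg) Pool.Agent.Helper66.TT.hDimES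
    Pool.Agent.Helper29.TT.hO1S kerOS
  have upx := Pool.Agent.Helper79.TX.hUpx b3x (hBsx uni) ubs
  exact ⟨evx, hCnx2 lbx upx ubs⟩

/-- The theorem for one conductor. -/
theorem asmTud : Tud2 := by
  obtain ⟨evx, cnx⟩ := asmCnx
  have a1 := Pool.Agent.Helper7.CV.hA1
  have a1b := Pool.Agent.Helper10.CV.hA1b a1
  have a2 := Pool.Agent.Helper55.CV.hA2 a1
  have a2c := Pool.Agent.Helper71.CV.hA2c a1
  have a3 := Pool.Agent.Helper72.CV.hA3 a1
  have a3T := Pool.Agent.Helper72.CV.hA3T a1 a1b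
  have a4 := Pool.Agent.Helper26.CV.hA4 a1 a1b a3
  have p1 := Pool.Agent.Helper87.CV.hP1
  have a6a := Pool.Agent.Helper38.CV.hA6a
  have a6b := Pool.Agent.Helper79.CV.hA6b a1
  have a6 := Pool.Agent.Helper96.CV.hA6 a1 a1b a3 a6a a6b p1
  have a6m := Pool.Agent.Helper51.TT.hA6M a1 a1b a3 a6a a6b p1
  have n1 := Pool.Agent.Helper10.CV.hN1
  have n3 := Pool.Agent.Helper16.CV.hN3 a1 a2 a2c a3 n1
  have a8w := Pool.Agent.Helper36.TT.hA8W
  have n4w := Pool.Agent.Helper8.TT.hN4W a8w Pool.Agent.Helper99.CV.hN2 n3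
  have p2 := Pool.Agent.Helper87.CV.hP2 a3 p1
  have p3 := Pool.Agent.Helper86.CV.hP3 a2
  have p5 := Pool.Agent.Helper86.CV.hP5 a3T p1
  have an1 := Pool.Agent.Helper61.TX.hAN1
  have an3 := Pool.Agent.Helper29.TX.hAN3
  have an5 := Pool.Agent.Helper55.TX.hAN5 Pool.Agent.Helper13.TX.hAN4 a1 an3
  have an6 := Pool.Agent.Helper42.TX.hAN6 a1 an1 Pool.Agent.Helper7.TX.hAN2
  have lte := Pool.Agent.Helper80.TX.hLTE an5 an6 an3
  have ltc := Pool.Agent.Helper92.TX.hLTC an5 an6 an3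
  have nws := Pool.Agent.Helper86.TX.hNws p1 p2 p5 Pool.Agent.Helper2.CV.hCom
    Pool.Agent.Helper14.CV.hNrm a8w n4w Pool.Agent.Helper86.TT.hP4W
  have zrx := Pool.Agent.Helper32.TX.hZrx p2 p3 evx
  exact hTud2 a4 a6 a6m (Pool.Agent.Helper71.TX.hPtl a1) (Pool.Agent.Helper47.TW.hInd a1) nws zrx
    Pool.Agent.Helper77.TX.hJac ltc lte cnx

end Pool.Agent.Helper76.TX
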