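import Pool.Agent.Helper28.WK.StA
import Pool.Agent.Helper14.CV.StE

/-!
# Project TX: quadratic twists of the newforms of level `2^n`, central values. Definitions

`d` is odd and squarefree, `χ(m) = jacobiSym m d` (the quadratic character of conductor `d`).
Everything not defined here is from project CV (Pool/Agent/Helper14/CV).
-/

set_option autoImplicit false

open UpperHalfPlane CongruenceSubgroup
open scoped MatrixGroups

namespace Pool.Agent.Helper76.TX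

open Pool.Agent.Helper14.CV

/-! ### Part 1: modular forms -/

/-- The root number of `f` is `w`: `Λ(s,f) = w Λ(1-s,f)` in the strip `-1/2 < Re s < 3/2` (see
`RootOne`). -/
def RootNum {N : ℕ} [NeZero N] (w : ℤ) (f : CuspForm (G0 N) 2) : Prop :=
  ∀ s : ℂ, -1 / 2 < s.re → s.re < 3 / 2 → Lam f s = (w : ℂ) * Lam f (1 - s)

/-- `g` is the twist of `f` by the quadratic character `χ = (·/d)`: the coefficients are
`χ(m) a_m(f)`. -/
def IsTwist {N M : ℕ} (d : ℕ) (f : CuspForm (G0 N) 2) (g : CuspForm (G0 M) 2) : Prop :=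
  ∀ m : ℕ, fc g m = ((jacobiSym (m : ℤ) d : ℤ) : ℂ) * fc f m

/-- The twist of `f` (of level `2^n`) by `(·/d)` exists and has central value `0`. -/
def TwZero (n d : ℕ) (f : CuspForm (G0 (2 ^ n)) 2) : Prop :=
  ∃ (_ : NeZero (2 ^ n * d ^ 2)) (g : CuspForm (G0 (2 ^ n * d ^ 2)) 2),
    IsTwist d f g ∧ Lan g (1 / 2) = 0

/-! ### Part 2: symbols -/

/-- The product `T_{l_1} T_{l_2} ⋯` applied to `G`. -/
def TW {R : Type} [AddCommGroup R] (L : List ℕ) (G : ℤ → ℤ → R) : ℤ → ℤ → R :=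
  L.foldr (fun l H => Tl l 1 H) G

/-- The sum of `G(a/d) - G(∞)` over the residues `a` coprime to `d`. -/
def SD {R : Type} [AddCommGroup R] (d : ℕ) (G : ℤ → ℤ → R) : R :=
  ∑ a ∈ (Finset.range d).filter (fun a => Nat.Coprime a d), (G a d - G 1 0)

/-- The sum of `χ(a) (G(a/d) - G(∞))`. -/
def eX {R : Type} [AddCommGroup R] (d : ℕ) (G : ℤ → ℤ → R) : R :=
  ∑ a ∈ Finset.range d, jacobiSym (a : ℤ) d • (G a d - G 1 0)

theorem eX_add {R : Type} [AddCommGroup R] (d : ℕ) (G H : ℤ → ℤ → R) :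
    eX d (G + H) = eX d G + eX d H := by
  unfold eX
  rw [← Finset.sum_add_distrib]
  refine Finset.sum_congr rfl fun a _ => ?_
  rw [← smul_add]
  congr 1
  simp only [Pi.add_apply]
  abel

theorem eX_smul (d : ℕ) (s : ℂ) (G : ℤ → ℤ → ℂ) : eX d (s • G) = s • eX d G := by
  unfold eX
  rw [Finset.smul_sum]
  refine Finset.sum_congr rfl fun a _ => ?_
  rw [smul_comm s]
  congr 1
  simp only [Pi.smul_apply, smul_sub]

theorem eX_congr {R : Type} [AddCommGroup R] {d : ℕ} (hd : d ≠ 0) {G H : ℤ → ℤ → R}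
    (h : EqC G H) : eX d G = eX d H := by
  unfold eX
  refine Finset.sum_congr rfl fun a _ => ?_
  congr 1
  exact h.diff (Or.inr (by exact_mod_cast hd)) (Or.inl one_ne_zero)

/-- `ev` for the twisted path: `(i, j) ↦` the value at `T_3^i T_5^j` of the twisted path. -/
noncomputable def evX (d : ℕ) : (ℤ → ℤ → ℂ) →ₗ[ℂ] (ℕ → ℕ → ℂ) where
  toFun G i j := eX d ((Tl 3 1)^[i] ((Tl 5 1)^[j] G))
  map_add' G H := by
    funext i j
    simp only [Tl_iter_add, Pi.add_apply]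
    exact eX_add d _ _
  map_smul' s G := by
    funext i j
    simp only [Tl_iter_smul, Pi.smul_apply, RingHom.id_apply]
    exact eX_smul d s _

theorem evX_apply (d : ℕ) (G : ℤ → ℤ → ℂ) (i j : ℕ) :
    evX d G i j = eX d ((Tl 3 1)^[i] ((Tl 5 1)^[j] G)) := rfl

theorem evX_congr {d : ℕ} (hd : d ≠ 0) {G H : ℤ → ℤ → ℂ} (h : EqC G H) :
    evX d G = evX d H := by
  funext i j
  rw [evX_apply, evX_apply]
  exact eX_congr hd ((h.Tl_iter (l := 5) (by norm_num) 1 j).Tl_iter (l := 3) (by norm_num) 1 i)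

/-- New symbols of level `2^n` with `W = -w` and `* = ε`. -/
def NewSymS (n : ℕ) (w ε : ℤ) (G : ℤ → ℤ → ℂ) : Prop :=
  Sym 0 n G ∧ EqC (act 2 1 0 2 G) (-G) ∧ EqC (act 1 0 (2 ^ (n - 1)) 1 G) (-G) ∧
    EqC (act 0 (-1) (2 ^ n) 0 G) (-(w • G)) ∧ EqC (act (-1) 0 0 1 G) (ε • G)

theorem NewSymS.add {n : ℕ} {w ε : ℤ} {G H : ℤ → ℤ → ℂ} (h : NewSymS n w ε G)
    (h' : NewSymS n w ε H) : NewSymS n w ε (G + H) := by
  obtain ⟨a1, a2, a3, a4, a5⟩ := h
  obtain ⟨b1, b2, b3, b4, b5⟩ := h'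
  refine ⟨a1.add b1, ?_, ?_, ?_, ?_⟩
  · rw [neg_add]; exact a2.add b2
  · rw [neg_add]; exact a3.add b3
  · rw [smul_add, neg_add]; exact a4.add b4
  · rw [smul_add]; exact a5.add b5

theorem NewSymS.smul {n : ℕ} {w ε : ℤ} (s : ℂ) {G : ℤ → ℤ → ℂ} (h : NewSymS n w ε G) :
    NewSymS n w ε (s • G) := by
  obtain ⟨a1, a2, a3, a4, a5⟩ := h
  refine ⟨a1.smul s, ?_, ?_, ?_, ?_⟩
  · rw [← smul_neg]; exact a2.smul s
  · rw [← smul_neg]; exact a3.smul s
  · rw [smul_comm w s, ← smul_neg]; exact a4.smul s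
  · rw [smul_comm ε s]; exact a5.smul s

/-- New symbols of level `2^n` (`W = -w`, `* = ε`) as a subspace. -/
def NSS (n : ℕ) (w ε : ℤ) : Submodule ℂ (ℤ → ℤ → ℂ) where
  carrier := {G | NewSymS n w ε G}
  add_mem' h h' := NewSymS.add h h'
  zero_mem' := by
    refine ⟨⟨fun _ _ _ _ _ => rfl, fun _ _ _ _ _ _ _ => EqC.refl _⟩, ?_, ?_, ?_, ?_⟩
    · rw [neg_zero]; exact EqC.refl _
    · rw [neg_zero]; exact EqC.refl _
    · rw [smul_zero, neg_zero]; exact EqC.refl _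
    · rw [smul_zero]; exact EqC.refl _
  smul_mem' s _ h := NewSymS.smul s h

/-! ### Part 3: plane functions with signs -/

/-- Balanced new symbols with signs, even exponent `n = 2k`. -/
def BalES (k : ℕ) (w ε : ℤ) (G : ℤ → ℤ → ℂ) : Prop :=
  Sym k k G ∧ EqC (act 1 (2 ^ (k - 1)) 0 1 G) (-G) ∧ EqC (act 1 0 (2 ^ (k - 1)) 1 G) (-G) ∧
    EqC (act 0 (-1) 1 0 G) (-(w • G)) ∧ EqC (act (-1) 0 0 1 G) (ε • G)

/-- Balanced new symbols with signs, odd exponent `n = 2k+1`. -/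
def BalOS (k : ℕ) (w ε : ℤ) (G : ℤ → ℤ → ℂ) : Prop :=
  Sym k (k + 1) G ∧ EqC (act 1 (2 ^ (k - 1)) 0 1 G) (-G) ∧ EqC (act 1 0 (2 ^ k) 1 G) (-G) ∧
    EqC (act 0 (-1) 2 0 G) (-(w • G)) ∧ EqC (act (-1) 0 0 1 G) (ε • G)

/-- Functions `F` on `(ZMod (2^(k-1)))²`, antiperiodic with period `2^(k-2)` in both variables, with
`F(-y,-x) = σ F(x,y)` and `F(-x,-y) = τ F(x,y)`. -/
def antiES (k : ℕ) (σ τ : ℤ) : Submodule ℂ (ZMod (2 ^ (k - 1)) → ZMod (2 ^ (k - 1)) → ℂ) where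
  carrier := {F | ∀ x y, F (x + 2 ^ (k - 2)) y = -F x y ∧ F x (y + 2 ^ (k - 2)) = -F x y ∧
    F (-y) (-x) = (σ : ℂ) * F x y ∧ F (-x) (-y) = (τ : ℂ) * F x y}
  add_mem' := by
    intro F F' h h' x y
    obtain ⟨h1, h2, h3, h4⟩ := h x y
    obtain ⟨g1, g2, g3, g4⟩ := h' x y
    simp only [Pi.add_apply, h1, h2, h3, h4, g1, g2, g3, g4]
    refine ⟨by ring, by ring, by ring, by ring⟩
  zero_mem' := by intro x y; simp
  smul_mem' := by
    intro c F h x y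
    obtain ⟨h1, h2, h3, h4⟩ := h x y
    simp only [Pi.smul_apply, h1, h2, h3, h4, smul_eq_mul]
    refine ⟨by ring, by ring, by ring, by ring⟩

/-- Functions on `(ZMod (2^k))²`, antiperiodic with period `2^(k-1)`, with `F(y,x) = η F(x,y)` and
`F(-x,-y) = ε F(x,y)`. -/
def antiOS (k : ℕ) (η ε : ℤ) : Submodule ℂ (ZMod (2 ^ k) → ZMod (2 ^ k) → ℂ) where
  carrier := {F | ∀ x y, F (x + 2 ^ (k - 1)) y = -F x y ∧ F x (y + 2 ^ (k - 1)) = -F x y ∧
    F y x = (η : ℂ) * F x y ∧ F (-x) (-y) = (ε : ℂ) * F x y}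
  add_mem' := by
    intro F F' h h' x y
    obtain ⟨h1, h2, h3, h4⟩ := h x y
    obtain ⟨g1, g2, g3, g4⟩ := h' x y
    simp only [Pi.add_apply, h1, h2, h3, h4, g1, g2, g3, g4]
    refine ⟨by ring, by ring, by ring, by ring⟩
  zero_mem' := by intro x y; simp
  smul_mem' := by
    intro c F h x y
    obtain ⟨h1, h2, h3, h4⟩ := h x y
    simp only [Pi.smul_apply, h1, h2, h3, h4, smul_eq_mul]
    refine ⟨by ring, by ring, by ring, by ring⟩

/-- The target of the quadrilateral relation, with signs. -/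
def antiFS (k : ℕ) (η ε : ℤ) : Submodule ℂ (ZMod (2 ^ k) → ZMod (2 ^ k) → ℂ) where
  carrier := {F | ∀ x y, F (x + 2 ^ (k - 1)) y = -F x y ∧ F x (y + 2 ^ (k - 1)) = -F x y ∧
    F y x = (η : ℂ) * F x y ∧ F (-x - 1) (-y * (1 + 2 * y)⁻¹) = -((ε : ℂ) * F x y)}
  add_mem' := by
    intro F F' h h' x y
    obtain ⟨h1, h2, h3, h4⟩ := h x y
    obtain ⟨g1, g2, g3, g4⟩ := h' x y
    simp only [Pi.add_apply, h1, h2, h3, h4, g1, g2, g3, g4]
    refine ⟨by ring, by ring, by ring, by ring⟩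
  zero_mem' := by intro x y; simp
  smul_mem' := by
    intro c F h x y
    obtain ⟨h1, h2, h3, h4⟩ := h x y
    simp only [Pi.smul_apply, h1, h2, h3, h4, smul_eq_mul]
    refine ⟨by ring, by ring, by ring, by ring⟩

/-- `w` is a sign. -/
def Sg (w : ℤ) : Prop := w = 1 ∨ w = -1

end Pool.Agent.Helper76.TX
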