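import Pool.Agent.Helper76.TX.StU

/-!
# Project TU: sharper form of the nonvanishing (linear in the conductor), statements

As `StNv.lean`, with the bound `D (4 log₂ D + 7) < 2^r` in place of `D (D (2 log₂ D + 3) + 1) < 2^r`, for
coefficients which are all nonzero.
-/

set_option autoImplicit false

namespace Pool.Agent.Helper76.TX

open Pool.Agent.Helper14.CV Pool.Agent.Helper28.WK Pool.Agent.Helper78.TW

/-- The content of NVA2: as `Nva`, with the number `φ(D)` of terms and the distances of the points. -/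
def Nva2 : Prop := ∀ (K : Type) (_ : Field K) (D r M : ℕ) (c : ℕ → K), Odd D →
  D * (M + 1) < 2 ^ r →
  ∃ (Ψ : (ZMod (2 ^ r) → ZMod (2 ^ r) → K) × (ZMod (2 ^ r) → ZMod (2 ^ r) → K) →ₗ[K] K)
    (E1 E3 : Finset (ZMod (2 ^ r) × ZMod (2 ^ r))) (xb : ℕ → ZMod (2 ^ r)),
    E1.card ≤ D.totient * (Nat.log 2 D + 2) ∧ E3.card ≤ D.totient * (Nat.log 2 D + 1) ∧
    (∀ p ∉ E1, Ψ (Function.curry (Pi.single p 1), 0) = 0) ∧
    (∀ p ∉ E3, Ψ (0, Function.curry (Pi.single p 1)) = 0) ∧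
    (∀ G : ℤ → ℤ → K, Sym (r + 1) (r + 1) G →
      ∑ b ∈ (Finset.range D).filter (fun b => Nat.Coprime b D),
        c b * (G (2 ^ (r + 1) * b) D - G 1 0) =
      Ψ (fun x y => edgeF 1 1 0 0 1 G x y, fun x y => edgeF 1 1 1 0 1 G x y)) ∧
    (∀ b < D, Nat.Coprime b D → Ψ (Function.curry (Pi.single (xb b, 0) 1), 0) = -c b ∧
      ∀ m : ℤ, m ≠ 0 → |m| ≤ M → Ψ (Function.curry (Pi.single (xb b + (m : ZMod (2 ^ r)), 0) 1), 0) = 0) ∧
    (∀ b < D, Nat.Coprime b D → ∀ b' < D, Nat.Coprime b' D → ∀ m : ℤ, |m| ≤ M →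
      xb b + (m : ZMod (2 ^ r)) = xb b' → b = b' ∧ m = 0)

/-- NVA2. Proof: the proof of `StNva` (Pool/Agent/Helper16/TX/M_Nva.lean). -/
def StNva2 : Prop := Pth → StEdg → Nva2

/-- The content of NVB2. -/
def Nvb2 : Prop := ∀ (K : Type) (_ : Field K) (D r : ℕ) (c : ℕ → K), Odd D →
  D * (4 * Nat.log 2 D + 7) < 2 ^ r → (∀ b < D, Nat.Coprime b D → c b ≠ 0) →
  ∃ G : ℤ → ℤ → K, Sym (r + 1) (r + 1) G ∧
    ∑ b ∈ (Finset.range D).filter (fun b => Nat.Coprime b D),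
      c b * (G (2 ^ (r + 1) * b) D - G 1 0) ≠ 0

/-- NVB2. Proof. `L = log₂ D`, `φ = D.totient`, `M = 4L + 6`, `N = φ (2L + 3)`. Suppose the sum is `0` for all
symbols. As in `StNvb` (docstring there): `Ψ`, `E1`, `E3`, `xb` from NVA2 (for this `M`), `lam` by duality and
EX, `tA (-1) lam = lam` off `E1`, `tB 1 lam = lam` off `E2 = E3 ∪ (E1 B⁻¹)`, `#E1 ≤ φ (L+2)`, `#E2 ≤ N` (both less
than `2^r`); GRID: `c`, `X0`, `#X0 ≤ N`, and `lam (x, 0) = c` for `x` not in `X0` (as `x/(1-4·x·0) = x`). For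
every `b` prime to `D` put `R_b = {x_b + t | 0 ≤ t ≤ M}`, `L_b = {x_b - 1 - t | 0 ≤ t ≤ M}`: `lam (x, 0)` is
`lam(x_b, 0)` on `R_b` and `lam(x_b - 1, 0)` on `L_b`, and these two values are different
(`lam(x_b - 1, 0) - lam(x_b, 0) = -c_b ≠ 0`), so `R_b ⊆ X0` or `L_b ⊆ X0`. The sets `R_b` have `M + 1`
elements (`M + 1 ≤ 2^r`) and are pairwise disjoint, the same for the `L_b` (last part of NVA2). Of the `φ` values
of `b` at least half have `R_b ⊆ X0`, or at least half have `L_b ⊆ X0`; so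
`2 N ≥ 2 #X0 ≥ φ (M + 1) = φ (4L + 7) > 2 N`, a contradiction (`φ ≥ 1`): precisely, the number of `b` with
`R_b ⊆ X0` times `M + 1` is at most `#X0`, the same for `L_b`, and the two numbers add up to at least `φ`. -/
def StNvb2 : Prop := StGrid → Nva2 → StEx → Nvb2

/-- The content of NVC2. -/
def Nvc2 : Prop := ∀ (K : Type) (_ : Field K) (D r : ℕ) (c : ℕ → K), Odd D →
  D * (4 * Nat.log 2 D + 7) < 2 ^ r → (∀ b < D, Nat.Coprime b D → c b ≠ 0) →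
  ∃ G : ℤ → ℤ → K, Sym 0 (2 * r + 2) G ∧
    ∑ b ∈ (Finset.range D).filter (fun b => Nat.Coprime b D), c b * (G b D - G 1 0) ≠ 0

/-- NVC2. Transport to level `(0, 2r+2)`, as `StNvc`. -/
def StNvc2 : Prop := Nvb2 → Nvc2

/-- The content of LBX2: as `Lbx`, with the weaker condition on `r`. -/
def Lbx2 : Prop := ∀ d r n : ℕ, Odd d → Squarefree d →
  d * (4 * Nat.log 2 d + 7) < 2 ^ r → 5 ≤ n → 2 * r + 2 ≤ n →
  Module.Finite ℂ ((XS n).map (evX d)) →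
  DD n ≤ Module.finrank ℂ ((XS n).map (evX d)) + 2 ^ (r + 2) * (2 ^ (n / 2 + 1) + 1)

/-- LBX2. Proof: the proof of `StLbx` with `Nvc2` (for `K = ZMod 2`, `c = 1`) in place of `Nvc`. -/
def StLbx2 : Prop := Bas → Spn → Nf → Nvc2 → Rk → Up → StVal → Lbx2

/-- The content of CNX2. -/
def Cnx2 : Prop := ∀ d n : ℕ, Odd d → Squarefree d → 5 ≤ n → ∀ (z : ℕ) (H : Fin z → ℤ → ℤ → ℂ),
  (∀ k, NewSymS n (jacobiSym (-(2 ^ n)) d) (jacobiSym (-1) d) (H k)) → (∀ k, evX d (H k) = 0) →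
  (∀ c : Fin z → ℂ, EqC (∑ k, c k • H k) 0 → c = 0) →
  z ≤ 64 * d * (Nat.log 2 d + 2) * 2 ^ (n / 2)

/-- CNX2. Proof: as `StCnx` (Pool/Agent/Helper15/TX/M_Cnx.lean). `L = log₂ d`, `B = d (4L + 7)`,
`r = log₂ B + 1`, `B < 2^r ≤ 2B`. If `2r + 2 ≤ n`: `z ≤ (2^(r+3) + 6) 2^(n/2) ≤ (16 B + 6) 2^(n/2)`,
`16 B + 6 = 64 d L + 112 d + 6 ≤ 64 d (L + 2)`. If `n < 2r + 2`: `z ≤ (2B + 1) 2^(n/2)`. -/
def StCnx2 : Prop := Lbx2 → Upx → UBS → Cnx2

end Pool.Agent.Helper76.TX
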