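import Pool.Agent.Helper76.TX.StU
import Pool.Agent.Helper14.TT.StU

/-!
# Project TU: the upper bound for new symbols with all signs (statement)
-/

set_option autoImplicit false

namespace Pool.Agent.Helper76.TX

open Pool.Agent.Helper14.CV Pool.Agent.Helper14.TT

/-- UBSOF. `UBS` from the modules with signs of project TT. Proof: as `StUBof`
(Pool/Agent/Helper76/CV/M_UBof.lean). `n = 2k`: compose the balanced form (BALS) with
`Ξ ∈ antiES k w (-ε)` (E1S, `k ≥ 2`), injective modulo constants; `finrank (antiES k w (-ε)) ≤ 4^(k-3) + 2^(k-3)`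
for `k ≥ 3` by DIMES (`w (1 + (-ε)) ≤ 2`), and `≤ 1` for `k = 2` (a function in `antiES 2 σ τ` is determined by its
value at `(0,0)`: antiperiodic with period `1` in both variables); both are at most `dd n + 2^(n/2)`
(`dd n = 4^(k-3)` for `k ≥ 3`, `dd 4 = 0`). `n = 2k+1`: BALS and `f ∈ antiOS k (w ε) ε ⊓ ker R` (O1S, `k ≥ 1`),
injective modulo constants; for `k ≥ 2` by KEROS
`8 finrank ≤ 4^(k-1) + 2^k = 8 dd n` (`dd n = a(a+1)/2`, `a = 2^(k-2)`); for `k = 1` the dimension is `≤ 1`, since a function
in `antiOS 1 η ε` is determined by its value at `(0,0)`. A space of dimension at most `m` has an injective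
linear map to `Fin m → ℂ`. The map `G ↦ edgeF ⋯ G` is linear in `G`. -/
def StUbs : Prop := BalS → E1S → DimES → O1S → KerOS → UBS

end Pool.Agent.Helper76.TX
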