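import Pool.Agent.Helper76.TX.StV
import Pool.Agent.Helper14.TT.StF
import Pool.Agent.Helper78.TW.StB

/-!
# Project TU: newforms and the final theorem (statements)
-/

set_option autoImplicit false

open UpperHalfPlane CongruenceSubgroup
open scoped MatrixGroups

namespace Pool.Agent.Helper76.TX

open Pool.Agent.Helper14.CV Pool.Agent.Helper14.TT Pool.Agent.Helper78.TW

/-- The content of PTL. -/
def Ptl : Prop := ∀ (N : ℕ) (_ : NeZero N) (z : ℕ) (f : Fin z → CuspForm (G0 N) 2)
  (G : Fin z → ℤ → ℤ → ℂ), (∀ k, IsPot (f k) (G k)) → ∀ c : Fin z → ℂ,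
  IsPot (∑ k, c k • f k) (∑ k, c k • G k)

/-- PTL. Potentials are linear. Proof. `fc (f + g) m = fc f m + fc g m`, `fc (c • f) m = c * fc f m`
(`qExpansion` of sums and multiples), so `Fp (∑ c k • f k) z = ∑ c k * Fp (f k) z` for `z` in the upper half
plane (the series converge, `StA1`); the points of the paths in `IsPot` are in the upper half plane for
large `y` (positive determinant); limits are linear (`tendsto_finset_sum`, eventually equal functions). -/
def StPtl : Prop := StA1 → Ptl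

/-- The content of NWS. -/
def Nws : Prop := ∀ (n : ℕ) (f : CuspForm (G0 (2 ^ n)) 2) (G : ℤ → ℤ → ℂ) (w ε : ℤ), 3 ≤ n → Sg w →
  Sg ε → IsNewform n f → RootNum w f → IsPot f G → NewSymS n w ε (G + ε • act (-1) 0 0 1 G)

/-- NWS. The new symbol of a newform, all signs. Proof (as in `FinTof`, model
Pool/Agent/Helper19/CV/M_Final.lean): `G` is a symbol (P2), `G∘W ≈ -w G` (A8W, P4W), `G∘t ≈ -G` (N4W, P5),
so `G∘σ ≈ -G` (`σ = W t^(±1) W⁻¹` up to scalars; from COM: `act t (act W G) ≈ act W (act σ G)`, and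
`act W` is injective up to constants on symbols since `W W G ≈ G`); `* = act (-1) 0 0 1` commutes with
`W`, `t`, `σ` up to constants and `* * G ≈ G` (COM), and preserves symbols (NRM). The scalars `w`, `ε` are
integers acting on functions; `ε • ε • G = G`. -/
def StNws : Prop := StP1 → StP2 → StP5 → StCom → StNrm → A8W → N4W → P4W → Nws

/-- The content of ZRX. -/
def Zrx : Prop := ∀ (n d : ℕ) (f : CuspForm (G0 (2 ^ n)) 2) (G : ℤ → ℤ → ℂ), 2 ≤ n → Odd d →
  IsNewform n f → IsPot f G → eX d G = 0 →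
  evX d (G + (jacobiSym (-1) d) • act (-1) 0 0 1 G) = 0

/-- ZRX. Proof. By P3 (`HeckeEig` from `IsNewform`) `Tl 3 1 G = a_3 G`, `Tl 5 1 G = a_5 G` away from the origin
(the values of `Tl` away from the origin only depend on those away from the origin, so the same for
the iterates), so `evX d G i j = a_3^i a_5^j eX d G = 0` (`eX d` only sees nonzero vectors, `d ≠ 0`). `G` is a
symbol (P2), so by EVX `evX d (act (-1) 0 0 1 G) = ε • evX d G = 0`; `evX d` is linear. -/
def StZrx : Prop := StP2 → StP3 → Evx → Zrx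

/-- The content of TUD: one conductor. -/
def Tud : Prop := ∀ d n : ℕ, Odd d → Squarefree d → 5 ≤ n →
  (∀ f : CuspForm (G0 (2 ^ n)) 2, ∃ L : ℂ → ℂ, IsTw d f L) ∧
  {f : CuspForm (G0 (2 ^ n)) 2 | IsNewform n f ∧ RootNum (jacobiSym (-(2 ^ n)) d) f ∧
    ∃ L : ℂ → ℂ, IsTw d f L ∧ L (1 / 2) = 0}.encard ≤
    ((64 * d ^ 2 * (Nat.log 2 d + 2) * 2 ^ (n / 2) : ℕ) : ℕ∞)

/-- TUD. Proof. `χ` from JAC (`χ⁻¹ = χ`); `IsTw d f L` is `IsLTw χ f L` (the same series, `χ m = jacobiSym m d`
for the integer `m`), so `LTE` gives the existence. Suppose the set has more than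
`M = 64 d² (log₂ d + 2) 2^(n/2)` elements; then there are `z = M + 1` different elements `f_1, ..., f_z`
(an injective function on `Fin (M + 1)`: `Set.exists_subset_encard_eq` or a finite subset). `G_k` the
potential of `f_k` (A4). By LTC `eX d G_k = 0` (`L (1/2) = 0`; the sum of `χ⁻¹(u) (G u d - G 1 0)` is
`eX d G`). `w = jacobiSym (-2^n) d`, `ε = jacobiSym (-1) d` are signs (`d` odd). `H_k = G_k + ε • act (-1) 0 0 1 G_k` is
in `NewSymS n w ε` (NWS) and `evX d H_k = 0` (ZRX). Independence: let `EqC (∑ c_k • H_k) 0`,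
`F = ∑ c_k • f_k`, `G = ∑ c_k • G_k` its potential (PTL). Then `G p q + ε G (-p) q` is constant away from the
origin, so `F = 0` by `StA6` (`ε = 1`) or `A6M` (`ε = -1`), and `c = 0` by `Ind`. So CNX gives
`M + 1 ≤ M`, a contradiction. -/
def StTud : Prop := StA4 → StA6 → A6M → Ptl → Ind → Nws → Zrx → Jac → LTC → LTE → Cnx → Tud

/-- TUX: the final theorem, uniform in the conductor. -/
def Tux : Prop := ∀ n X : ℕ, 5 ≤ n →
  (∀ (d : ℕ) (f : CuspForm (G0 (2 ^ n)) 2), Odd d → Squarefree d → ∃ L : ℂ → ℂ, IsTw d f L) ∧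
  {f : CuspForm (G0 (2 ^ n)) 2 | IsNewform n f ∧ ∃ d : ℕ, d ≤ X ∧ Odd d ∧ Squarefree d ∧
    RootNum (jacobiSym (-(2 ^ n)) d) f ∧ ∃ L : ℂ → ℂ, IsTw d f L ∧ L (1 / 2) = 0}.encard ≤
    ((64 * X ^ 3 * (Nat.log 2 X + 2) * 2 ^ (n / 2) : ℕ) : ℕ∞)

/-- TUX from TUD: the set is the union over the odd squarefree `1 ≤ d ≤ X` of the sets of TUD, at most `X`
of them, each of cardinality at most `64 X² (log₂ X + 2) 2^(n/2)` (`Nat.log` is monotone). -/
def StTux : Prop := Tud → Tux

end Pool.Agent.Helper76.TX
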