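import Pool.Agent.Helper76.TX.StW
import Pool.Agent.Helper76.TX.StNv2

/-!
# Project TU: the theorem with the linear dependence on the conductor (statements)
-/

set_option autoImplicit false

open UpperHalfPlane CongruenceSubgroup
open scoped MatrixGroups

namespace Pool.Agent.Helper76.TX

open Pool.Agent.Helper14.CV Pool.Agent.Helper14.TT Pool.Agent.Helper78.TW

/-- The content of TUD2: one conductor. -/
def Tud2 : Prop := ∀ d n : ℕ, Odd d → Squarefree d → 5 ≤ n →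
  (∀ f : CuspForm (G0 (2 ^ n)) 2, ∃ L : ℂ → ℂ, IsTw d f L) ∧
  {f : CuspForm (G0 (2 ^ n)) 2 | IsNewform n f ∧ RootNum (jacobiSym (-(2 ^ n)) d) f ∧
    ∃ L : ℂ → ℂ, IsTw d f L ∧ L (1 / 2) = 0}.encard ≤
    ((64 * d * (Nat.log 2 d + 2) * 2 ^ (n / 2) : ℕ) : ℕ∞)

/-- TUD2. Proof: the proof of `StTud` (Pool/Agent/Helper67/TX/M_Tud.lean) with `Cnx2`. -/
def StTud2 : Prop := StA4 → StA6 → A6M → Ptl → Ind → Nws → Zrx → Jac → LTC → LTE → Cnx2 → Tud2

/-- TUX2: uniform in the conductor. -/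
def Tux2 : Prop := ∀ n X : ℕ, 5 ≤ n →
  {f : CuspForm (G0 (2 ^ n)) 2 | IsNewform n f ∧ ∃ d : ℕ, d ≤ X ∧ Odd d ∧ Squarefree d ∧
    RootNum (jacobiSym (-(2 ^ n)) d) f ∧ ∃ L : ℂ → ℂ, IsTw d f L ∧ L (1 / 2) = 0}.encard ≤
    ((64 * X ^ 2 * (Nat.log 2 X + 2) * 2 ^ (n / 2) : ℕ) : ℕ∞)

/-- TUX2 from TUD2: the set is the union over the odd squarefree `1 ≤ d ≤ X` of the sets of TUD2, at most `X`
of them, each of cardinality at most `64 X (log₂ X + 2) 2^(n/2)` (`Nat.log` is monotone). -/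
def StTux2 : Prop := Tud2 → Tux2

end Pool.Agent.Helper76.TX
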